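import Pool.Agent.H96.MC.Targets

/-!
# MP_5da387_pr, module AL: the absorption lemma (helper4)
-/

namespace Pool.Agent.H4.MC

open Classical Pool.Agent.H96.MC

noncomputable section

variable {d q : ℕ}

/-- a pattern in one cell -/
def cp (b : Cell d) (x : Fin q → ℕ) : Pat d q := ∑ i, Finsupp.single (b, i) (x i)

lemma cp_apply (b : Cell d) (x : Fin q → ℕ) (y : Cell d) (j : Fin q) :
    cp b x (y, j) = if y = b then x j else 0 := by
  unfold cp
  rw [Finsupp.finsetSum_apply]
  by_cases h : y = b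
  · subst h
    rw [if_pos rfl, Finset.sum_eq_single j]
    · rw [Finsupp.single_eq_same]
    · intro i _ hi
      rw [Finsupp.single_eq_of_ne]
      intro h'
      exact hi (by simpa using (Prod.mk.inj h').2.symm)
    · intro h
      exact absurd (Finset.mem_univ _) h
  · rw [if_neg h]
    refine Finset.sum_eq_zero fun i _ => ?_
    rw [Finsupp.single_eq_of_ne]
    intro h'
    exact h (Prod.mk.inj h').1

lemma tot_cp (b : Cell d) (x : Fin q → ℕ) : tot (cp b x) = x := by
  have h : tot (cp b x) = totHom d q (cp b x) := rfl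
  rw [h]
  unfold cp
  rw [map_sum]
  have h2 : ∀ i, totHom d q (Finsupp.single (b, i) (x i)) = Pi.single i (x i) := fun i =>
    tot_single (b, i) (x i)
  simp only [h2]
  exact Finset.univ_sum_single x

lemma tot_sum {ι : Type*} (s : Finset ι) (u : ι → Pat d q) :
    tot (∑ i ∈ s, u i) = ∑ i ∈ s, tot (u i) := by
  have h : tot (∑ i ∈ s, u i) = totHom d q (∑ i ∈ s, u i) := rfl
  rw [h, map_sum]
  rfl

lemma tot_of_support {v : Pat d q} {Y : Finset (Cell d)} (h : ∀ x ∈ v.support, x.1 ∈ Y)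
    (i : Fin q) : tot v i = ∑ b ∈ Y, v (b, i) := by
  unfold tot
  rw [Finsupp.sum]
  have h1 : v.support ⊆ Y ×ˢ Finset.univ := by
    intro x hx
    exact Finset.mem_product.mpr ⟨h x hx, Finset.mem_univ _⟩
  rw [Finset.sum_subset h1 (by
    intro x _ hx
    rw [Finsupp.notMem_support_iff] at hx
    rw [hx]
    simp), Finset.sum_product]
  refine Finset.sum_congr rfl fun b _ => ?_
  simp

lemma toZ_ap (x : Fin q → ℕ) (i : Fin q) : Pool.Agent.H96.MC.toZ x i = (x i : ℤ) := rfl

/-- adjacent cells differ in one coordinate by one -/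
lemma adj_update {b b' : Cell d} (h : Adj b b') :
    ∃ p : Fin d × Bool, b' = Function.update b p.1 (b p.1 + (if p.2 then 1 else -1)) := by
  unfold Adj at h
  have hex : ∃ i, (b i - b' i).natAbs ≠ 0 := by
    by_contra hc
    push Not at hc
    rw [Finset.sum_eq_zero fun i _ => hc i] at h
    omega
  obtain ⟨i, hi⟩ := hex
  rw [← Finset.add_sum_erase Finset.univ _ (Finset.mem_univ i)] at h
  have h1 : ∑ j ∈ Finset.univ.erase i, (b j - b' j).natAbs = 0 := by omega
  have h2 : (b i - b' i).natAbs = 1 := by omega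
  rw [Finset.sum_eq_zero_iff] at h1
  refine ⟨(i, decide (b i < b' i)), ?_⟩
  funext j
  by_cases hj : j = i
  · subst hj
    rw [Function.update_self]
    by_cases hlt : b j < b' j
    · simp only [hlt, decide_true, if_true]
      omega
    · simp only [hlt, decide_false, Bool.false_eq_true, if_false]
      omega
  · have := h1 j (Finset.mem_erase.mpr ⟨hj, Finset.mem_univ _⟩)
    rw [Function.update_of_ne hj]
    omega

lemma adj_symm {b b' : Cell d} (h : Adj b b') : Adj b' b := by
  unfold Adj at h ⊢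
  rw [← h]
  refine Finset.sum_congr rfl fun i _ => ?_
  omega

lemma card_adj (Y : Finset (Cell d)) (b : Cell d) :
    (Y.filter (fun b' => Adj b b')).card ≤ 2 * d := by
  have h : Y.filter (fun b' => Adj b b') ⊆ (Finset.univ : Finset (Fin d × Bool)).image
      (fun p => Function.update b p.1 (b p.1 + (if p.2 then 1 else -1))) := by
    intro b' hb'
    obtain ⟨p, hp⟩ := adj_update (Finset.mem_filter.mp hb').2
    exact Finset.mem_image.mpr ⟨p, Finset.mem_univ _, hp.symm⟩
  calc _ ≤ _ := Finset.card_le_card h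
    _ ≤ (Finset.univ : Finset (Fin d × Bool)).card := Finset.card_image_le
    _ = 2 * d := by simp [mul_comm]

lemma nrm_adj {b b' : Cell d} (h : Adj b b') : nrm (b - b') ≤ 1 := by
  unfold Adj at h
  unfold nrm
  rw [Real.sqrt_le_one]
  have h1 : ∀ i, (((b - b') i : ℤ) : ℝ) ^ 2 ≤ (((b i - b' i).natAbs : ℕ) : ℝ) := by
    intro i
    have h2 : (b i - b' i).natAbs ≤ 1 := by
      rw [← h]
      exact Finset.single_le_sum (f := fun i => (b i - b' i).natAbs) (fun _ _ => Nat.zero_le _)
        (Finset.mem_univ i)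
    have h3 : ((b - b') i : ℤ) = b i - b' i := rfl
    rw [h3]
    have h4 : (b i - b' i) ^ 2 ≤ ((b i - b' i).natAbs : ℤ) := by
      have h5 : b i - b' i = 0 ∨ b i - b' i = 1 ∨ b i - b' i = -1 := by omega
      rcases h5 with h5 | h5 | h5 <;> rw [h5] <;> norm_num
    have h6 : ((((b i - b' i) ^ 2 : ℤ)) : ℝ) ≤ ((((b i - b' i).natAbs : ℤ)) : ℝ) :=
      Int.cast_le.mpr h4
    rw [Int.cast_natCast, Int.cast_pow] at h6
    exact h6
  calc ∑ i, (((b - b') i : ℤ) : ℝ) ^ 2 ≤ ∑ i, (((b i - b' i).natAbs : ℕ) : ℝ) :=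
        Finset.sum_le_sum fun i _ => h1 i
    _ = ((∑ i, (b i - b' i).natAbs : ℕ) : ℝ) := by push_cast; rfl
    _ ≤ 1 := by rw [h]; norm_num

/-- **AL**: the absorption lemma -/
theorem al (h1 : T_CONE) (h2 : T_CLS) (h3 : T_FLOW) (h4 : T_SMALL) : T_AL := by
  intro q D
  obtain ⟨η', c₀, hη0, hη1, hc₀, hcone⟩ := h1 q D
  obtain ⟨E, hE, hcls, -⟩ := h2 q D
  refine ⟨η' / 2, by linarith, by linarith, ?_⟩
  intro d hd
  have hterm : ∀ i, 0 ≤ 4 * (d : ℝ) * E / (η' * D.lam i) := fun i => by
    have := D.pos i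
    positivity
  refine ⟨c₀ + ∑ i, 4 * (d : ℝ) * E / (η' * D.lam i), by linarith, by linarith, ?_, ?_⟩
  · have := Finset.sum_nonneg fun i (_ : i ∈ Finset.univ) => hterm i
    linarith
  intro Y c v hY hsupp hfat hlat
  have hbig : ∀ b ∈ Y, c₀ ≤ c b ∧ ∀ i, 2 * (d : ℝ) * E ≤ η' / 2 * c b * D.lam i := by
    intro b hb
    have hcb := (hfat b hb).1
    have hs := Finset.sum_nonneg fun i (_ : i ∈ Finset.univ) => hterm i
    refine ⟨by linarith, fun i => ?_⟩
    have hi : 4 * (d : ℝ) * E / (η' * D.lam i) ≤ c b := by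
      have := Finset.single_le_sum (f := fun i => 4 * (d : ℝ) * E / (η' * D.lam i))
        (fun i _ => hterm i) (Finset.mem_univ i)
      linarith
    rw [div_le_iff₀ (mul_pos hη0 (D.pos i))] at hi
    nlinarith
  -- the group of the classes
  let mk : (Fin q → ℤ) →+ (Fin q → ℤ) ⧸ Lat D.V := QuotientAddGroup.mk' (Lat D.V)
  have hmk : ∀ y, mk y = 0 ↔ y ∈ Lat D.V := fun y => QuotientAddGroup.eq_zero_iff y
  let f : Cell d → (Fin q → ℤ) ⧸ Lat D.V := fun b => mk (toZ fun i => v (b, i))
  have hftot : ∑ b ∈ Y, toZ (fun i => v (b, i)) = toZ (tot v) := by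
    funext i
    rw [Finset.sum_apply]
    simp only [toZ_ap]
    rw [tot_of_support hsupp i]
    push_cast
    rfl
  have hf0 : ∑ b ∈ Y, f b = 0 := by
    simp only [f]
    rw [← map_sum, hftot, hmk]
    exact hlat
  obtain ⟨φ, hφ1, hφ2⟩ := h3 d ((Fin q → ℤ) ⧸ Lat D.V) inferInstance Y f hY hf0
  have hrep : ∀ g : (Fin q → ℤ) ⧸ Lat D.V, ∃ s : Fin q → ℕ, (∀ i, s i ≤ E) ∧ mk (toZ s) = g ∧
      (g = 0 → s = 0) := by
    intro g
    by_cases hg : g = 0
    · refine ⟨0, fun i => by simp, ?_, fun _ => rfl⟩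
      rw [toZ_zero, map_zero, hg]
    · obtain ⟨y, hy⟩ := QuotientAddGroup.mk'_surjective (Lat D.V) g
      obtain ⟨s, hs1, hs2⟩ := hcls y
      refine ⟨s, fun i => (hs1 i).le, ?_, fun h => absurd h hg⟩
      have : mk (y - toZ s) = 0 := (hmk _).mpr hs2
      rw [map_sub, sub_eq_zero] at this
      rw [← this]
      exact hy
  choose S hS1 hS2 hS3 using hrep
  let s : Cell d → Cell d → Fin q → ℕ := fun b b' => S (φ b b')
  have hsadj : ∀ b b' i, s b b' i ≠ 0 → b ∈ Y ∧ b' ∈ Y ∧ Adj b b' := by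
    intro b b' i h
    apply hφ1
    intro h0
    apply h
    simp only [s]
    rw [hS3 _ h0]
    rfl
  have hout : ∀ b i, ∑ b' ∈ Y, s b b' i ≤ 2 * d * E := by
    intro b i
    calc ∑ b' ∈ Y, s b b' i = ∑ b' ∈ Y.filter (fun b' => Adj b b'), s b b' i := by
          symm
          apply Finset.sum_subset (Finset.filter_subset _ _)
          intro b' hb' hn
          by_contra hne
          exact hn (Finset.mem_filter.mpr ⟨hb', (hsadj b b' i hne).2.2⟩)
      _ ≤ ∑ b' ∈ Y.filter (fun b' => Adj b b'), E := Finset.sum_le_sum fun b' _ => hS1 _ i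
      _ = (Y.filter (fun b' => Adj b b')).card * E := by rw [Finset.sum_const, smul_eq_mul]
      _ ≤ 2 * d * E := Nat.mul_le_mul_right _ (card_adj Y b)
  have hinn : ∀ b i, ∑ b' ∈ Y, s b' b i ≤ 2 * d * E := by
    intro b i
    calc ∑ b' ∈ Y, s b' b i = ∑ b' ∈ Y.filter (fun b' => Adj b b'), s b' b i := by
          symm
          apply Finset.sum_subset (Finset.filter_subset _ _)
          intro b' hb' hn
          by_contra hne
          exact hn (Finset.mem_filter.mpr ⟨hb', adj_symm (hsadj b' b i hne).2.2⟩)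
      _ ≤ ∑ b' ∈ Y.filter (fun b' => Adj b b'), E := Finset.sum_le_sum fun b' _ => hS1 _ i
      _ = (Y.filter (fun b' => Adj b b')).card * E := by rw [Finset.sum_const, smul_eq_mul]
      _ ≤ 2 * d * E := Nat.mul_le_mul_right _ (card_adj Y b)
  have houtR : ∀ b i, ((∑ b' ∈ Y, s b b' i : ℕ) : ℝ) ≤ 2 * d * E := fun b i => by
    exact_mod_cast hout b i
  have hinnR : ∀ b i, ((∑ b' ∈ Y, s b' b i : ℕ) : ℝ) ≤ 2 * d * E := fun b i => by
    exact_mod_cast hinn b i
  -- the counts dominate the outflow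
  have hle : ∀ b ∈ Y, ∀ i, ∑ b' ∈ Y, s b b' i ≤ v (b, i) := by
    intro b hb i
    have h5 := (hbig b hb).2 i
    have h6 := (hfat b hb).2 i
    have h7 := houtR b i
    rw [abs_le] at h6
    have h8 : 0 ≤ c b * D.lam i := by
      have := (hbig b hb).1
      have := D.pos i
      apply mul_nonneg <;> linarith
    have h9 : ((∑ b' ∈ Y, s b b' i : ℕ) : ℝ) ≤ (v (b, i) : ℝ) := by
      have h10 := h6.1
      nlinarith
    exact_mod_cast h9
  let x : Cell d → Fin q → ℕ := fun b i =>
    v (b, i) - ∑ b' ∈ Y, s b b' i + ∑ b' ∈ Y, s b' b i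
  let w : Cell d → Pat d q := fun b =>
    cp b (fun i => v (b, i) - ∑ b' ∈ Y, s b b' i) + ∑ b' ∈ Y, cp b' (s b' b)
  have htw : ∀ b, tot (w b) = x b := by
    intro b
    simp only [w]
    rw [tot_add, tot_cp, tot_sum]
    simp only [tot_cp]
    funext i
    simp only [Pi.add_apply, Finset.sum_apply, x]
  have hxlat : ∀ b ∈ Y, toZ (x b) ∈ Lat D.V := by
    intro b hb
    rw [← hmk]
    have h5 : toZ (x b) = toZ (fun i => v (b, i)) - ∑ b' ∈ Y, toZ (s b b') +
        ∑ b' ∈ Y, toZ (s b' b) := by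
      funext i
      simp only [toZ_ap, x, Pi.add_apply, Pi.sub_apply, Finset.sum_apply]
      rw [Nat.cast_add, Nat.cast_sub (hle b hb i)]
      push_cast
      ring
    rw [h5, map_add, map_sub, map_sum, map_sum]
    have h6 : ∀ b b', mk (toZ (s b b')) = φ b b' := fun b b' => hS2 _
    simp only [h6]
    have h7 := hφ2 b hb
    have h8 : mk (toZ fun i => v (b, i)) = f b := rfl
    rw [h8, ← h7]
    abel
  have hxfat : ∀ b ∈ Y, Fat D.lam η' (c b) (x b) := by
    intro b hb i
    have h5 := (hbig b hb).2 i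
    have h6 := (hfat b hb).2 i
    have h7 := houtR b i
    have h8 := hinnR b i
    have h9 : ((x b i : ℕ) : ℝ) = (v (b, i) : ℝ) - ((∑ b' ∈ Y, s b b' i : ℕ) : ℝ) +
        ((∑ b' ∈ Y, s b' b i : ℕ) : ℝ) := by
      simp only [x]
      rw [Nat.cast_add, Nat.cast_sub (hle b hb i)]
    rw [h9]
    have h10 : (0 : ℝ) ≤ ((∑ b' ∈ Y, s b b' i : ℕ) : ℝ) := Nat.cast_nonneg _
    have h11 : (0 : ℝ) ≤ ((∑ b' ∈ Y, s b' b i : ℕ) : ℝ) := Nat.cast_nonneg _
    rw [abs_le] at h6 ⊢
    constructor
    · nlinarith [h6.1]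
    · nlinarith [h6.2]
  have hwT : ∀ b ∈ Y, w b ∈ Tl D.V 2 := by
    intro b hb
    apply h4
    · rw [htw]
      exact hcone (x b) (c b) (hbig b hb).1 (hxfat b hb) (hxlat b hb)
    · have hnear : ∀ y ∈ (w b).support, nrm (y.1 - b) ≤ 1 := by
        rintro ⟨y, j⟩ hy
        rw [Finsupp.mem_support_iff] at hy
        simp only [w] at hy
        rw [Finsupp.add_apply, Finsupp.finsetSum_apply] at hy
        simp only [cp_apply] at hy
        by_cases hyb : y = b
        · simp only [hyb]
          rw [sub_self, nrm_zero]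
          norm_num
        · rw [if_neg hyb, zero_add] at hy
          obtain ⟨b', hb', hne⟩ := Finset.exists_ne_zero_of_sum_ne_zero hy
          by_cases hyb' : y = b'
          · rw [if_pos hyb'] at hne
            simp only [hyb']
            exact nrm_adj (hsadj b' b j hne).2.2
          · rw [if_neg hyb'] at hne
            exact absurd rfl hne
      intro y hy z hz
      have h5 := nrm_sub_le y.1 b z.1
      have h6 := hnear y hy
      have h7 := hnear z hz
      rw [nrm_sub_comm] at h7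
      linarith
  have hsum : v = ∑ b ∈ Y, w b := by
    ext ⟨y, j⟩
    rw [Finsupp.finsetSum_apply]
    simp only [w]
    have h5 : ∀ b, (cp b (fun i => v (b, i) - ∑ b' ∈ Y, s b b' i) +
        ∑ b' ∈ Y, cp b' (s b' b) : Pat d q) (y, j) =
        (if y = b then v (b, j) - ∑ b' ∈ Y, s b b' j else 0) +
          ∑ b' ∈ Y, (if y = b' then s b' b j else 0) := by
      intro b
      rw [Finsupp.add_apply, Finsupp.finsetSum_apply]
      simp only [cp_apply]
    simp only [h5]
    rw [Finset.sum_add_distrib]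
    by_cases hy : y ∈ Y
    · rw [Finset.sum_ite_eq Y y, if_pos hy, Finset.sum_comm]
      have h6 : ∀ b' ∈ Y, ∑ b ∈ Y, (if y = b' then s b' b j else 0) =
          if y = b' then ∑ b ∈ Y, s b' b j else 0 := by
        intro b' _
        split_ifs
        · rfl
        · simp
      rw [Finset.sum_congr rfl h6, Finset.sum_ite_eq Y y, if_pos hy]
      rw [Nat.sub_add_cancel (hle y hy j)]
    · have h6 : v (y, j) = 0 := by
        by_contra hne
        exact hy (hsupp (y, j) (Finsupp.mem_support_iff.mpr hne))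
      rw [h6]
      symm
      rw [Nat.add_eq_zero_iff]
      constructor
      · refine Finset.sum_eq_zero fun b hb => ?_
        rw [if_neg]
        rintro rfl
        exact hy hb
      · refine Finset.sum_eq_zero fun b _ => Finset.sum_eq_zero fun b' hb' => ?_
        rw [if_neg]
        rintro rfl
        exact hy hb'
  rw [hsum]
  exact (Tl D.V 2).sum_mem fun b hb => hwT b hb

end

end Pool.Agent.H4.MC
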