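import Pool.Agent.H96.MC.Targets
import Pool.Agent.H96.MC.Targets2

/-!
# MP_5da387_pr, module FINW: the finite windows, assembly (helper4)
-/

namespace Pool.Agent.H4.MC

open Classical MeasureTheory ProbabilityTheory Pool.Agent.H96.MC Filter Topology

open scoped NNReal ENNReal

noncomputable section

variable {d q : ℕ}

lemma card_cube' (c : Cell d) (T : ℕ) : (cube c T).card = (2 * T + 1) ^ d := by
  unfold cube
  rw [Fintype.card_piFinset]
  have h : ∀ i : Fin d, (Finset.Icc (c i - T) (c i + T)).card = 2 * T + 1 := by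
    intro i
    rw [Int.card_Icc]
    omega
  rw [Finset.prod_congr rfl fun i _ => h i, Finset.prod_const, Finset.card_univ, Fintype.card_fin]

/-- analysis: the final estimate -/
lemma ana (d : ℕ) (hd : 1 ≤ d) (a ε C : ℝ) (hε : 0 < ε) (hC : 0 ≤ C) :
    ∀ᶠ r : ℝ in atTop, (⌈r ^ (d + 1)⌉₊ : ℝ) * Real.exp (-(a - ε / 2) * r ^ d) +
      C * (1 / 2) ^ ⌈r ^ (d + 1)⌉₊ ≤ Real.exp (-(a - ε) * r ^ d) := by
  have hpow : Tendsto (fun r : ℝ => r ^ d) atTop atTop := tendsto_pow_atTop (by omega)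
  -- first estimate
  have h1 : ∀ᶠ y : ℝ in atTop, 4 * y ^ 2 * Real.exp (-(ε / 2) * y) ≤ 1 := by
    have h := Real.tendsto_pow_mul_exp_neg_atTop_nhds_zero 2
    have h2 : Tendsto (fun y : ℝ => ε / 2 * y) atTop atTop :=
      tendsto_id.const_mul_atTop (by linarith)
    have h3 := (h.comp h2).const_mul (4 / (ε / 2) ^ 2)
    rw [mul_zero] at h3
    have h4 := h3.eventually (ge_mem_nhds (show (0 : ℝ) < 1 by norm_num))
    filter_upwards [h4] with y hy
    simp only [Function.comp_apply] at hy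
    have h5 : 4 / (ε / 2) ^ 2 * ((ε / 2 * y) ^ 2 * Real.exp (-(ε / 2 * y))) =
        4 * y ^ 2 * Real.exp (-(ε / 2) * y) := by
      have : (ε / 2) ^ 2 ≠ 0 := by positivity
      have h6 : -(ε / 2 * y) = -(ε / 2) * y := by ring
      rw [h6]
      field_simp
    rw [h5] at hy
    exact hy
  have h1' := hpow.eventually h1
  -- second estimate
  have hexp : ∀ᶠ r : ℝ in atTop, 2 * C ≤ Real.exp r :=
    Real.tendsto_exp_atTop.eventually (eventually_ge_atTop (2 * C))
  have hlog2 : 0 < Real.log 2 := Real.log_pos (by norm_num)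
  filter_upwards [h1', hexp, eventually_ge_atTop 1,
    eventually_ge_atTop ((|a - ε| + 1) / Real.log 2)] with r hr1 hr2 hr3 hr4
  set y : ℝ := r ^ d with hy
  have hr0 : (0 : ℝ) < r := by linarith
  have hry : r ≤ y := by
    calc r = r ^ 1 := (pow_one r).symm
      _ ≤ r ^ d := pow_le_pow_right₀ hr3 hd
  have hy1 : 1 ≤ y := by linarith
  have hrd : r ^ (d + 1) = r * y := by rw [pow_succ, hy]; ring
  have hk1 : (⌈r ^ (d + 1)⌉₊ : ℝ) ≤ 2 * y ^ 2 := by
    have h2 := Nat.ceil_lt_add_one (show 0 ≤ r ^ (d + 1) by positivity)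
    rw [hrd] at h2 ⊢
    nlinarith
  have hfirst : (⌈r ^ (d + 1)⌉₊ : ℝ) * Real.exp (-(a - ε / 2) * y) ≤
      1 / 2 * Real.exp (-(a - ε) * y) := by
    have h3 : Real.exp (-(a - ε / 2) * y) = Real.exp (-(ε / 2) * y) * Real.exp (-(a - ε) * y) := by
      rw [← Real.exp_add]; congr 1; ring
    rw [h3, ← mul_assoc]
    apply mul_le_mul_of_nonneg_right _ (Real.exp_pos _).le
    have h4 : (⌈r ^ (d + 1)⌉₊ : ℝ) * Real.exp (-(ε / 2) * y) ≤
        2 * y ^ 2 * Real.exp (-(ε / 2) * y) :=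
      mul_le_mul_of_nonneg_right hk1 (Real.exp_pos _).le
    linarith
  have hsecond : C * (1 / 2) ^ ⌈r ^ (d + 1)⌉₊ ≤ 1 / 2 * Real.exp (-(a - ε) * y) := by
    have h3 : ((1 : ℝ) / 2) ^ ⌈r ^ (d + 1)⌉₊ ≤ Real.exp (-(Real.log 2 * (r * y))) := by
      have h4 : ((1 : ℝ) / 2) ^ ⌈r ^ (d + 1)⌉₊ =
          Real.exp (-(Real.log 2 * (⌈r ^ (d + 1)⌉₊ : ℝ))) := by
        have h5 : (1 : ℝ) / 2 = Real.exp (-Real.log 2) := by
          rw [Real.exp_neg, Real.exp_log (by norm_num)]; norm_num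
        rw [h5, ← Real.exp_nat_mul]
        congr 1
        ring
      rw [h4]
      apply Real.exp_le_exp.mpr
      have h6 : r * y ≤ (⌈r ^ (d + 1)⌉₊ : ℝ) := by
        rw [← hrd]
        exact Nat.le_ceil _
      have := mul_le_mul_of_nonneg_left h6 hlog2.le
      linarith
    have h7 : C ≤ 1 / 2 * Real.exp y := by
      have := Real.exp_le_exp.mpr hry
      linarith
    have h8 : y - Real.log 2 * (r * y) ≤ -(a - ε) * y := by
      rw [div_le_iff₀ hlog2] at hr4
      have h9 := le_abs_self (a - ε)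
      nlinarith
    calc C * (1 / 2) ^ ⌈r ^ (d + 1)⌉₊
        ≤ 1 / 2 * Real.exp y * Real.exp (-(Real.log 2 * (r * y))) :=
          mul_le_mul h7 h3 (by positivity) (by positivity)
      _ = 1 / 2 * Real.exp (y - Real.log 2 * (r * y)) := by
          rw [mul_assoc, ← Real.exp_add]; congr 2
      _ ≤ 1 / 2 * Real.exp (-(a - ε) * y) := by
          apply mul_le_mul_of_nonneg_left _ (by norm_num)
          exact Real.exp_le_exp.mpr h8
  linarith

/-- **FINW** -/
theorem finw (hAL : T_AL) (hCL : T_CLS) (hP : T_PAR) (hPh : T_PHI) (hR : T_REC) (hC : T_CNT)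
    (hA : T_APOS) (hL : T_LOC) (hF : T_FMEAS) : T_FINW := by
  intro d q D hd
  obtain ⟨η, _, _, hη⟩ := hAL q D
  obtain ⟨c₁, hc₁⟩ := hη d hd
  obtain ⟨E, hE1, hE2, -⟩ := hCL q D
  have hE : ClsE D E := ⟨hE1, hE2⟩
  obtain ⟨P, cT, θ, β, hPOK, hPPR⟩ := hP d q D η c₁ E hd hc₁
  have hrec := hR d q D η c₁ (aconst D d) cT E P θ β hd hPOK hPPR
  choose Φ hΦm hΦmat hΦun hΦfar using fun J => hPh d q D η c₁ E P hd hc₁ hE hPOK J
  obtain ⟨C, hC0, hcnt⟩ := hC d q D
  have ha := hA d q D hd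
  -- growth of `A`
  have hAbig : ∀ j, 16 * (j + 1) ≤ P.A j := by
    intro j
    induction j with
    | zero =>
      have h1 := hPOK.lA 0
      have h2 := hPOK.lpos 0
      omega
    | succ j ih =>
      have h1 := hPOK.Amono j
      omega
  -- union bound
  have hub : ∀ (c : Cell d) (A j : ℕ), pois D d (⋃ z ∈ cube c A, {n | FF D P η n j z}) ≤
      ENNReal.ofReal ((2 * (A : ℝ) + 1) ^ d * Real.exp (-(θ j))) := by
    intro c A j
    calc pois D d (⋃ z ∈ cube c A, {n | FF D P η n j z})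
        ≤ ∑ z ∈ cube c A, pois D d {n | FF D P η n j z} := measure_biUnion_finset_le _ _
      _ ≤ ∑ z ∈ cube c A, ENNReal.ofReal (Real.exp (-(θ j))) :=
          Finset.sum_le_sum fun z _ => hrec j z
      _ = ENNReal.ofReal ((2 * (A : ℝ) + 1) ^ d * Real.exp (-(θ j))) := by
          rw [Finset.sum_const, card_cube', nsmul_eq_mul, ENNReal.ofReal_mul (by positivity),
            ENNReal.ofReal_pow (by positivity)]
          congr 1
          rw [show (2 * (A : ℝ) + 1) = ((2 * A + 1 : ℕ) : ℝ) by push_cast; ring,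
            ENNReal.ofReal_natCast]
          push_cast
          rfl
  have hmeasFF : ∀ (j : ℕ) (z : Cell d), MeasurableSet {n | FF D P η n j z} := by
    intro j z
    apply hF d q (cube z (3 * P.A j) ×ˢ Finset.univ)
    intro n n' hnn
    refine hL d q D η c₁ E P hPOK j z n n' fun x hx => ?_
    exact hnn x (Finset.mem_product.mpr ⟨mem_cube.mpr hx, Finset.mem_univ _⟩)
  let M : ℕ → ℕ := fun J => P.A (J + 1) / 4
  let τ : ℝ → ℝ≥0∞ := fun r => ⨆ J : ℕ, ⨆ c : Cell d, ⨆ _ : sn c ≤ M J,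
    ∫⁻ n, (numFarAt c r (n, Φ J n) : ℝ≥0∞) ∂(pois D d)
  -- the tail of `τ`
  have htail : ∀ ε > 0, ∀ᶠ r : ℝ in atTop,
      τ r ≤ ENNReal.ofReal (Real.exp (-(aconst D d - ε) * r ^ d)) := by
    intro ε hε
    filter_upwards [ana d hd (aconst D d) ε C hε hC0, hPPR.q3 (ε / 2) (by linarith),
      eventually_ge_atTop (3 * d * (P.l 0 : ℝ))] with r hr1 hr2 hr3
    refine iSup_le fun J => iSup_le fun c => iSup_le fun _ => ?_
    let S : Set (Cfg d q) := ⋃ j ∈ (Finset.Icc 1 J).filter (fun j => r < P.R d j),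
      ⋃ z ∈ cube c (P.A j), {n | FF D P η n (j - 1) z}
    have hS : MeasurableSet S :=
      Finset.measurableSet_biUnion _ fun j _ => Finset.measurableSet_biUnion _ fun z _ =>
        hmeasFF (j - 1) z
    have hfar : ∀ n i k, Far r (n, Φ J n) ((c, i), k) → n ∈ S := by
      intro n i k hfar
      have h1 : ¬ Allow D P η n J c r := fun hal => hΦfar J n ((c, i), k) r hal hfar
      unfold Allow at h1
      push Not at h1
      obtain ⟨j, hj1, hjJ, ⟨z, hz1, hz2⟩, hlt⟩ := h1 hr3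
      refine Set.mem_iUnion₂.mpr ⟨j, Finset.mem_filter.mpr ⟨Finset.mem_Icc.mpr ⟨hj1, hjJ⟩, hlt⟩, ?_⟩
      exact Set.mem_iUnion₂.mpr ⟨z, mem_cube.mpr hz1, hz2⟩
    have hle : ∀ n, (numFarAt c r (n, Φ J n) : ℝ≥0∞) ≤
        S.indicator (fun n => ((∑ i : Fin q, n (c, i) : ℕ) : ℝ≥0∞)) n := by
      intro n
      by_cases hn : n ∈ S
      · rw [Set.indicator_of_mem hn]
        have : numFarAt c r (n, Φ J n) ≤ ∑ i : Fin q, n (c, i) := by
          unfold numFarAt
          refine Finset.sum_le_sum fun i _ => ?_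
          refine (Finset.card_filter_le _ _).trans ?_
          rw [Finset.card_range]
        exact_mod_cast this
      · rw [Set.indicator_of_notMem hn]
        have : numFarAt c r (n, Φ J n) = 0 := by
          unfold numFarAt
          refine Finset.sum_eq_zero fun i _ => ?_
          rw [Finset.card_eq_zero, Finset.filter_eq_empty_iff]
          intro k _ hk
          exact hn (hfar n i k hk)
        rw [this]
        simp
    have hpS : pois D d S ≤ ENNReal.ofReal (Real.exp (-(aconst D d - ε / 2) * r ^ d)) := by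
      calc pois D d S ≤ ∑ j ∈ (Finset.Icc 1 J).filter (fun j => r < P.R d j),
            pois D d (⋃ z ∈ cube c (P.A j), {n | FF D P η n (j - 1) z}) :=
            measure_biUnion_finset_le _ _
        _ ≤ ∑ j ∈ (Finset.Icc 1 J).filter (fun j => r < P.R d j),
            ENNReal.ofReal ((2 * (P.A j : ℝ) + 1) ^ d * Real.exp (-(θ (j - 1)))) :=
            Finset.sum_le_sum fun j _ => hub c (P.A j) (j - 1)
        _ = ENNReal.ofReal (∑ j ∈ (Finset.Icc 1 J).filter (fun j => r < P.R d j),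
            (2 * (P.A j : ℝ) + 1) ^ d * Real.exp (-(θ (j - 1)))) := by
            rw [ENNReal.ofReal_sum_of_nonneg]
            intro j _
            positivity
        _ ≤ _ := ENNReal.ofReal_le_ofReal (hr2 J)
    set k := ⌈r ^ (d + 1)⌉₊ with hk
    calc ∫⁻ n, (numFarAt c r (n, Φ J n) : ℝ≥0∞) ∂(pois D d)
        ≤ ∫⁻ n, S.indicator (fun n => ((∑ i : Fin q, n (c, i) : ℕ) : ℝ≥0∞)) n ∂(pois D d) :=
          lintegral_mono hle
      _ = ∫⁻ n in S, ((∑ i : Fin q, n (c, i) : ℕ) : ℝ≥0∞) ∂(pois D d) :=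
          lintegral_indicator hS _
      _ ≤ (k : ℝ≥0∞) * pois D d S + ENNReal.ofReal (C * (1 / 2) ^ k) := hcnt c S k hS
      _ ≤ (k : ℝ≥0∞) * ENNReal.ofReal (Real.exp (-(aconst D d - ε / 2) * r ^ d)) +
          ENNReal.ofReal (C * (1 / 2) ^ k) := by gcongr
      _ = ENNReal.ofReal ((k : ℝ) * Real.exp (-(aconst D d - ε / 2) * r ^ d) +
          C * (1 / 2) ^ k) := by
          rw [ENNReal.ofReal_add (by positivity) (by positivity),
            ENNReal.ofReal_mul (Nat.cast_nonneg k), ENNReal.ofReal_natCast]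
      _ ≤ _ := ENNReal.ofReal_le_ofReal hr1
  refine ⟨M, τ, Φ, ?_, hΦm, hΦmat, ?_, ?_, ?_, htail⟩
  · refine tendsto_atTop_mono (fun J => ?_) tendsto_id
    show J ≤ P.A (J + 1) / 4
    have := hAbig (J + 1)
    omega
  · have hq2 : Tendsto (fun J => ENNReal.ofReal ((2 * (P.A (J + 1) : ℝ) + 1) ^ d *
        Real.exp (-(θ J)))) atTop (𝓝 0) := by
      have := ENNReal.tendsto_ofReal hPPR.q2
      rwa [ENNReal.ofReal_zero] at this
    refine tendsto_of_tendsto_of_tendsto_of_le_of_le tendsto_const_nhds hq2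
      (fun _ => bot_le) fun J => ?_
    refine (measure_mono ?_).trans (hub 0 (P.A (J + 1)) J)
    rintro n ⟨x, hx1, hx2, hx3⟩
    by_contra hn
    refine hΦun J n (fun z hz hFF => hn ?_) x ?_ hx2 hx3
    · exact Set.mem_iUnion₂.mpr ⟨z, mem_cube.mpr (by rwa [sub_zero]), hFF⟩
    · have h1 : sn x.1.1 ≤ P.A (J + 1) / 4 := hx1
      omega
  · intro J c r hc
    show _ ≤ ⨆ J : ℕ, ⨆ c : Cell d, ⨆ _ : sn c ≤ M J,
      ∫⁻ n, (numFarAt c r (n, Φ J n) : ℝ≥0∞) ∂(pois D d)
    exact le_iSup_of_le J (le_iSup_of_le c (le_iSup_of_le hc le_rfl))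
  · have h1 := htail (aconst D d / 2) (by linarith)
    have h2 : Tendsto (fun r : ℝ => ENNReal.ofReal
        (Real.exp (-(aconst D d - aconst D d / 2) * r ^ d))) atTop (𝓝 0) := by
      have h3 : Tendsto (fun r : ℝ => Real.exp (-(aconst D d - aconst D d / 2) * r ^ d)) atTop
          (𝓝 0) := by
        apply Real.tendsto_exp_atBot.comp
        have h4 : Tendsto (fun r : ℝ => r ^ d) atTop atTop := tendsto_pow_atTop (by omega)
        exact h4.const_mul_atTop_of_neg (by linarith)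
      have := ENNReal.tendsto_ofReal h3
      rwa [ENNReal.ofReal_zero] at this
    exact tendsto_of_tendsto_of_tendsto_of_le_of_le' tendsto_const_nhds h2
      (Eventually.of_forall fun _ => bot_le) h1

end

end Pool.Agent.H4.MC
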