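import Pool.Agent.H4.MC.PLaux

/-!
# MP_5da387_pr, module LIM: the rate of a semilinear set is a limit (helper4)
-/

namespace Pool.Agent.H4.MC

open Classical MeasureTheory ProbabilityTheory Pool.Agent.H96.MC Filter Topology

open scoped NNReal Pointwise

noncomputable section

variable {κ : Type} [Fintype κ]

/-- the sequence converges -/
def Cv (lam : κ → ℝ) (Z : Set (κ → ℕ)) : Prop :=
  ∃ γ : ℝ, Tendsto (fun L : ℕ => -Real.log (PL lam L Z) / L) atTop (𝓝 γ)

lemma pp_zero_pos (lam : κ → ℝ) (L : ℝ) : 0 < pp lam L 0 := by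
  unfold pp
  refine Finset.prod_pos fun k _ => ?_
  simp only [Pi.zero_apply, pow_zero, Nat.factorial_zero, Nat.cast_one, div_one, mul_one]
  exact Real.exp_pos _

lemma cv_linear (h1 : T_PLM) {lam : κ → ℝ} (hlam : ∀ k, 0 < lam k) (a : κ → ℕ)
    (M : AddSubmonoid (κ → ℕ)) : Cv lam ((fun z => a + z) '' (M : Set (κ → ℕ))) := by
  have hg0 : ∀ L : ℕ, 0 < PL lam L (M : Set (κ → ℕ)) := by
    intro L
    refine lt_of_lt_of_le (pp_zero_pos lam L) ?_
    rw [← PL_singleton]
    exact PL_mono h1 hlam (Nat.cast_nonneg L) (Set.singleton_subset_iff.mpr M.zero_mem)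
  have hsub : Subadditive fun L : ℕ => -Real.log (PL lam L (M : Set (κ → ℕ))) := by
    intro m n
    have h := PL_conv h1 hlam (L := (m : ℝ)) (L' := (n : ℝ)) (Nat.cast_nonneg m)
      (Nat.cast_nonneg n) (A := (M : Set (κ → ℕ))) (B := M) (Z := M)
      (fun x hx y hy => M.add_mem hx hy)
    have h2 := Real.log_le_log (mul_pos (hg0 m) (hg0 n)) h
    rw [Real.log_mul (hg0 m).ne' (hg0 n).ne'] at h2
    push_cast
    linarith
  have hu0 : ∀ L : ℕ, 0 ≤ -Real.log (PL lam L (M : Set (κ → ℕ))) := by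
    intro L
    have := Real.log_nonpos (hg0 L).le (PL_le_one h1 hlam (Nat.cast_nonneg L) _)
    linarith
  have hbdd : BddBelow (Set.range fun n : ℕ => -Real.log (PL lam n (M : Set (κ → ℕ))) / n) := by
    refine ⟨0, ?_⟩
    rintro _ ⟨n, rfl⟩
    exact div_nonneg (hu0 n) (Nat.cast_nonneg n)
  have hlim := hsub.tendsto_lim hbdd
  refine ⟨hsub.lim, ?_⟩
  set u : ℕ → ℝ := fun L => -Real.log (PL lam L (M : Set (κ → ℕ))) with hu
  set γ := hsub.lim with hγ
  set Z : Set (κ → ℕ) := (fun z => a + z) '' (M : Set (κ → ℕ)) with hZ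
  have hZne : Z.Nonempty := ⟨a + 0, 0, M.zero_mem, rfl⟩
  -- pass to `m + 1`
  rw [← tendsto_add_atTop_iff_nat 1]
  have hfpos : ∀ m : ℕ, 0 < PL lam ((m + 1 : ℕ) : ℝ) Z := fun m =>
    PL_pos h1 hlam (by positivity) hZne
  have hup : ∀ m : ℕ, -Real.log (PL lam ((m + 1 : ℕ) : ℝ) Z) ≤ -Real.log (pp lam 1 a) + u m := by
    intro m
    have h := PL_conv h1 hlam (L := (1 : ℝ)) (L' := (m : ℝ)) zero_le_one
      (Nat.cast_nonneg m) (A := {a}) (B := M) (Z := Z) (by
        rintro x hx y hy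
        rw [Set.mem_singleton_iff] at hx
        subst hx
        exact ⟨y, hy, rfl⟩)
    rw [PL_singleton] at h
    have h2 := Real.log_le_log (mul_pos (pp_pos hlam one_pos a) (hg0 m)) h
    rw [Real.log_mul (pp_pos hlam one_pos a).ne' (hg0 m).ne'] at h2
    have h3 : (((m + 1 : ℕ) : ℝ)) = 1 + (m : ℝ) := by push_cast; ring
    rw [h3]
    simp only [hu]
    linarith
  set A : ℝ := ∑ k, (a k : ℝ) * Real.log (lam k) with hA
  set B : ℝ := ∑ k, (a k : ℝ) with hB
  have hlo : ∀ m : ℕ, u (m + 1) - (A + B * Real.log ((m + 1 : ℕ) : ℝ)) ≤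
      -Real.log (PL lam ((m + 1 : ℕ) : ℝ) Z) := by
    intro m
    have hLpos : (0 : ℝ) < ((m + 1 : ℕ) : ℝ) := by positivity
    have h := PL_shift_le h1 hlam hLpos.le a (M : Set (κ → ℕ))
    have h2 := Real.log_le_log (hfpos m) h
    have h3 : 0 < ∏ k, (lam k * ((m + 1 : ℕ) : ℝ)) ^ (a k) :=
      Finset.prod_pos fun k _ => pow_pos (mul_pos (hlam k) hLpos) _
    rw [Real.log_mul h3.ne' (hg0 (m + 1)).ne'] at h2
    have h4 : Real.log (∏ k, (lam k * ((m + 1 : ℕ) : ℝ)) ^ (a k)) =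
        A + B * Real.log ((m + 1 : ℕ) : ℝ) := by
      rw [Real.log_prod (fun k _ => (pow_pos (mul_pos (hlam k) hLpos) _).ne'), hA, hB,
        Finset.sum_mul, ← Finset.sum_add_distrib]
      refine Finset.sum_congr rfl fun k _ => ?_
      rw [Real.log_pow, Real.log_mul (hlam k).ne' hLpos.ne']
      ring
    rw [h4] at h2
    simp only [hu]
    linarith
  -- limits
  have hlim1 : Tendsto (fun m : ℕ => u (m + 1) / ((m + 1 : ℕ) : ℝ)) atTop (𝓝 γ) :=
    (tendsto_add_atTop_iff_nat 1).mpr hlim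
  have hlog : Tendsto (fun m : ℕ => Real.log ((m + 1 : ℕ) : ℝ) / ((m + 1 : ℕ) : ℝ)) atTop
      (𝓝 0) := by
    have h := Real.tendsto_pow_log_div_mul_add_atTop 1 0 1 one_ne_zero
    have h2 := h.comp (tendsto_natCast_atTop_atTop (R := ℝ))
    have h3 := (tendsto_add_atTop_iff_nat 1).mpr h2
    refine h3.congr fun m => ?_
    simp
  have hA0 : Tendsto (fun m : ℕ => A / ((m + 1 : ℕ) : ℝ)) atTop (𝓝 0) :=
    (tendsto_add_atTop_iff_nat 1).mpr (tendsto_const_div_atTop_nhds_zero_nat A)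
  have hC0 : Tendsto (fun m : ℕ => -Real.log (pp lam 1 a) / ((m + 1 : ℕ) : ℝ)) atTop (𝓝 0) :=
    (tendsto_add_atTop_iff_nat 1).mpr (tendsto_const_div_atTop_nhds_zero_nat _)
  have hlow : Tendsto (fun m : ℕ => u (m + 1) / ((m + 1 : ℕ) : ℝ) -
      (A / ((m + 1 : ℕ) : ℝ) + B * (Real.log ((m + 1 : ℕ) : ℝ) / ((m + 1 : ℕ) : ℝ)))) atTop
      (𝓝 γ) := by
    have h := hlim1.sub (hA0.add (hlog.const_mul B))
    simpa using h
  have hhigh : Tendsto (fun m : ℕ => -Real.log (pp lam 1 a) / ((m + 1 : ℕ) : ℝ) +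
      u m / (m : ℝ) * ((m : ℝ) / ((m : ℝ) + 1))) atTop (𝓝 γ) := by
    have h := hC0.add (hlim.mul (tendsto_natCast_div_add_atTop (1 : ℝ)))
    simpa using h
  refine tendsto_of_tendsto_of_tendsto_of_le_of_le' hlow hhigh ?_ ?_
  · refine Eventually.of_forall fun m => ?_
    have hLpos : (0 : ℝ) < ((m + 1 : ℕ) : ℝ) := by positivity
    rw [← mul_div_assoc, ← add_div, ← sub_div]
    exact div_le_div_of_nonneg_right (hlo m) hLpos.le
  · refine eventually_atTop.mpr ⟨1, fun m hm => ?_⟩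
    have hLpos : (0 : ℝ) < ((m + 1 : ℕ) : ℝ) := by positivity
    have hmpos : (0 : ℝ) < (m : ℝ) := by exact_mod_cast hm
    have h5 : u m / (m : ℝ) * ((m : ℝ) / ((m : ℝ) + 1)) = u m / ((m + 1 : ℕ) : ℝ) := by
      push_cast
      field_simp
    rw [h5, ← add_div]
    exact div_le_div_of_nonneg_right (hup m) hLpos.le

lemma cv_union (h1 : T_PLM) {lam : κ → ℝ} (hlam : ∀ k, 0 < lam k) {Z Z' : Set (κ → ℕ)}
    (hZ : Z.Nonempty) (hZ' : Z'.Nonempty) (h : Cv lam Z) (h' : Cv lam Z') :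
    Cv lam (Z ∪ Z') := by
  obtain ⟨γ, hγ⟩ := h
  obtain ⟨γ', hγ'⟩ := h'
  refine ⟨min γ γ', ?_⟩
  have hhigh := hγ.min hγ'
  have hlow : Tendsto (fun L : ℕ => min (-Real.log (PL lam L Z) / L)
      (-Real.log (PL lam L Z') / L) - Real.log 2 / L) atTop (𝓝 (min γ γ')) := by
    have := hhigh.sub (tendsto_const_div_atTop_nhds_zero_nat (Real.log 2))
    simpa using this
  refine tendsto_of_tendsto_of_tendsto_of_le_of_le' hlow hhigh ?_ ?_
  · refine eventually_atTop.mpr ⟨1, fun L hL => ?_⟩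
    have hLpos : (0 : ℝ) < (L : ℝ) := by exact_mod_cast hL
    have p1 := PL_pos h1 hlam hLpos hZ
    have p2 := PL_pos h1 hlam hLpos hZ'
    have p3 := PL_pos h1 hlam hLpos (hZ.mono (Set.subset_union_left (t := Z')))
    have hle := PL_union_le h1 hlam hLpos.le Z Z'
    rcases le_total (PL lam L Z) (PL lam L Z') with hc | hc
    · have h2 : Real.log (PL lam L (Z ∪ Z')) ≤ Real.log 2 + Real.log (PL lam L Z') := by
        rw [← Real.log_mul (by norm_num) p2.ne']
        exact Real.log_le_log p3 (by linarith)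
      calc min (-Real.log (PL lam L Z) / L) (-Real.log (PL lam L Z') / L) - Real.log 2 / L
          ≤ -Real.log (PL lam L Z') / L - Real.log 2 / L := by
            linarith [min_le_right (-Real.log (PL lam L Z) / L) (-Real.log (PL lam L Z') / L)]
        _ = (-Real.log (PL lam L Z') - Real.log 2) / L := by ring
        _ ≤ -Real.log (PL lam L (Z ∪ Z')) / L :=
            div_le_div_of_nonneg_right (by linarith) hLpos.le
    · have h2 : Real.log (PL lam L (Z ∪ Z')) ≤ Real.log 2 + Real.log (PL lam L Z) := by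
        rw [← Real.log_mul (by norm_num) p1.ne']
        exact Real.log_le_log p3 (by linarith)
      calc min (-Real.log (PL lam L Z) / L) (-Real.log (PL lam L Z') / L) - Real.log 2 / L
          ≤ -Real.log (PL lam L Z) / L - Real.log 2 / L := by
            linarith [min_le_left (-Real.log (PL lam L Z) / L) (-Real.log (PL lam L Z') / L)]
        _ = (-Real.log (PL lam L Z) - Real.log 2) / L := by ring
        _ ≤ -Real.log (PL lam L (Z ∪ Z')) / L :=
            div_le_div_of_nonneg_right (by linarith) hLpos.le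
  · refine eventually_atTop.mpr ⟨1, fun L hL => ?_⟩
    have hLpos : (0 : ℝ) < (L : ℝ) := by exact_mod_cast hL
    have p1 := PL_pos h1 hlam hLpos hZ
    have p2 := PL_pos h1 hlam hLpos hZ'
    refine le_min ?_ ?_
    · apply div_le_div_of_nonneg_right _ hLpos.le
      have := Real.log_le_log p1 (PL_mono h1 hlam hLpos.le (Set.subset_union_left (t := Z')))
      linarith
    · apply div_le_div_of_nonneg_right _ hLpos.le
      have := Real.log_le_log p2 (PL_mono h1 hlam hLpos.le (Set.subset_union_right (s := Z)))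
      linarith

lemma cv_sUnion (h1 : T_PLM) {lam : κ → ℝ} (hlam : ∀ k, 0 < lam k) (S : Set (Set (κ → ℕ)))
    (hS : S.Finite) : (∀ t ∈ S, IsLinearSet t) → (⋃₀ S = ∅ ∨ Cv lam (⋃₀ S)) := by
  induction S, hS using Set.Finite.induction_on with
  | empty => intro _; left; simp
  | @insert t S _ _ ih =>
    intro hl
    right
    obtain ⟨a, P, _, ht⟩ := hl t (Set.mem_insert _ _)
    have ht' : t = (fun z => a + z) '' (AddSubmonoid.closure P : Set (κ → ℕ)) := by
      rw [ht]
      rfl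
    have hct : Cv lam t := by
      rw [ht']
      exact cv_linear h1 hlam a _
    have htne : t.Nonempty := by
      rw [ht']
      exact ⟨a + 0, 0, (AddSubmonoid.closure P).zero_mem, rfl⟩
    rw [Set.sUnion_insert]
    rcases Set.eq_empty_or_nonempty (⋃₀ S) with he | hne
    · rw [he, Set.union_empty]
      exact hct
    · rcases ih (fun t ht => hl t (Set.mem_insert_of_mem _ ht)) with h | h
      · rw [h, Set.union_empty]
        exact hct
      · exact cv_union h1 hlam htne hne hct h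

/-- **LIM** -/
theorem lim (h1 : T_PLM) (_h2 : T_PSUM) : T_LIM := by
  intro κ _ lam Z hlam hsemi hZ
  have hcv : Cv lam Z := by
    obtain ⟨S, hS, hlin, rfl⟩ := hsemi
    rcases cv_sUnion h1 hlam S hS hlin with h | h
    · rw [h] at hZ
      exact absurd hZ Set.not_nonempty_empty
    · exact h
  obtain ⟨γ, hγ⟩ := hcv
  have : rate lam Z = γ := hγ.liminf_eq
  rw [this]
  exact hγ

end

end Pool.Agent.H4.MC
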