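import Pool.Agent.H89.MC.Targets

/-!
mc_modules MEA (MP_5da387_pr): measurability of the counts.
-/

namespace Pool.Agent.H4.MC.MEA

open Classical MeasureTheory ProbabilityTheory
open Pool.Agent.H96.MC

noncomputable section

variable {d q : ℕ}

/-- the number of the events of a countable family which happen is measurable -/
lemma meas_encard {Ω I : Type} [mΩ : MeasurableSpace Ω] [Countable I] (E : I → Set Ω)
    (hE : ∀ j, MeasurableSet (E j)) (m : MeasurableSpace ℕ∞) :
    @Measurable Ω ℕ∞ mΩ m (fun ω => {j | ω ∈ E j}.encard) := by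
  have hge : ∀ n : ℕ, MeasurableSet {ω | (n : ℕ∞) ≤ {j | ω ∈ E j}.encard} := by
    intro n
    have : {ω | (n : ℕ∞) ≤ {j | ω ∈ E j}.encard} =
        ⋃ (K : Finset I) (_ : K.card = n), ⋂ j ∈ K, E j := by
      ext ω
      simp only [Set.mem_iUnion, Set.mem_iInter, exists_prop]
      constructor
      · intro h
        obtain ⟨t, ht, hn⟩ := Set.exists_subset_encard_eq h
        have hfin : t.Finite := Set.finite_of_encard_eq_coe hn
        refine ⟨hfin.toFinset, ?_, fun j hj => ht ((Set.Finite.mem_toFinset hfin).1 hj)⟩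
        rw [hfin.encard_eq_coe_toFinset_card] at hn
        exact_mod_cast hn
      · rintro ⟨K, hK, h⟩
        have h1 : (K : Set I) ⊆ {j | ω ∈ E j} := fun j hj => h j hj
        have h2 := Set.encard_le_encard h1
        rw [Set.encard_coe_eq_coe_finsetCard, hK] at h2
        exact h2
    rw [this]
    exact MeasurableSet.iUnion fun K => MeasurableSet.iUnion fun _ =>
      MeasurableSet.biInter K.countable_toSet fun j _ => hE j
  refine @measurable_to_countable' ℕ∞ Ω m _ mΩ _ ?_
  intro x
  induction x using ENat.recTopCoe with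
  | top =>
    have : (fun ω => {j | ω ∈ E j}.encard) ⁻¹' {⊤} =
        ⋂ n : ℕ, {ω | (n : ℕ∞) ≤ {j | ω ∈ E j}.encard} := by
      ext ω
      simp only [Set.mem_preimage, Set.mem_singleton_iff, Set.mem_iInter]
      constructor
      · intro h n
        show (n : ℕ∞) ≤ {j | ω ∈ E j}.encard
        rw [h]
        exact le_top
      · intro h
        exact ENat.eq_top_iff_forall_ge.2 h
    rw [this]
    exact MeasurableSet.iInter hge
  | coe n =>
    have : (fun ω => {j | ω ∈ E j}.encard) ⁻¹' {(n : ℕ∞)} =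
        {ω | (n : ℕ∞) ≤ {j | ω ∈ E j}.encard} \ {ω | ((n + 1 : ℕ) : ℕ∞) ≤ {j | ω ∈ E j}.encard} := by
      ext ω
      simp only [Set.mem_preimage, Set.mem_singleton_iff, Set.mem_sdiff]
      show _ ↔ (n : ℕ∞) ≤ {j | ω ∈ E j}.encard ∧ ¬ ((n + 1 : ℕ) : ℕ∞) ≤ {j | ω ∈ E j}.encard
      generalize {j | ω ∈ E j}.encard = z
      induction z using ENat.recTopCoe with
      | top => simp
      | coe z =>
        norm_cast
        omega
    rw [this]
    exact (hge n).diff (hge (n + 1))

lemma measurable_pos (x : Pt d q) : Measurable fun ω : Big d q => pos ω x := by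
  unfold pos
  have h : Measurable (WithLp.toLp 2 : (Fin d → ℝ) → Sp d) := by fun_prop
  refine h.comp ?_
  fun_prop

lemma measurableSet_famB (h1 : T_GOO) (h2 : T_MTC) (hd : 1 ≤ d) (V : Finset (Fin q → ℕ))
    (G : Finset (Pt d q)) (S : Set (Finset (Sp d))) (hS : MeasurableSet[famSigma d] S) :
    MeasurableSet {ω : Big d q | GoodB V ω ∧ famB ω G ∈ S} := by
  have hgood : MeasurableSet {ω : Big d q | GoodB V ω} := (h1 d q V hd).1
  have hf : @Measurable {ω : Big d q // GoodB V ω} (Finset (Sp d)) _ (famSigma d)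
      (fun ω => famB ω.1 G) := by
    rw [measurable_iff_comap_le, famSigma, MeasurableSpace.comap_iSup]
    refine iSup_le fun A => ?_
    rw [MeasurableSpace.comap_comp, ← measurable_iff_comap_le]
    have hE : ∀ y : Pt d q, MeasurableSet {ω : {ω : Big d q // GoodB V ω} | y ∈ G ∧ pos ω.1 y ∈ A.1} := by
      intro y
      by_cases hy : y ∈ G
      · simp only [hy, true_and]
        exact ((measurable_pos y).comp measurable_subtype_coe) A.2
      · simp only [hy, false_and]
        exact MeasurableSet.empty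
    have hm := meas_encard (fun y : Pt d q => {ω : {ω : Big d q // GoodB V ω} |
      y ∈ G ∧ pos ω.1 y ∈ A.1}) hE ⊤
    refine (Eq.mpr (congrArg _ ?_) hm)
    funext ω
    have hinj := (h2 d q V ω.1 hd ω.2).1
    have hset : ((famB ω.1 G : Finset (Sp d)) : Set (Sp d)) ∩ A.1 =
        pos ω.1 '' {y | y ∈ G ∧ pos ω.1 y ∈ A.1} := by
      ext z
      simp only [famB, Finset.coe_image, Set.mem_inter_iff, Set.mem_image, Finset.mem_coe]
      constructor
      · rintro ⟨⟨y, hy, rfl⟩, hz⟩
        exact ⟨y, ⟨hy, hz⟩, rfl⟩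
      · rintro ⟨y, ⟨hy, hz⟩, rfl⟩
        exact ⟨⟨y, hy, rfl⟩, hz⟩
    show ((((famB ω.1 G : Finset (Sp d)) : Set (Sp d)) ∩ A.1).encard) = _
    rw [hset, hinj.encard_image]
    rfl
  have h3 : MeasurableSet {ω : {ω : Big d q // GoodB V ω} | famB ω.1 G ∈ S} := hf hS
  have h4 := MeasurableSet.subtype_image hgood h3
  convert h4 using 1
  ext ω
  constructor
  · rintro ⟨h5, h6⟩
    exact ⟨⟨ω, h5⟩, h6, rfl⟩
  · rintro ⟨⟨ω', h5⟩, h6, rfl⟩
    exact ⟨h5, h6⟩

/-- **MEA** -/
theorem mea (h1 : T_GOO) (h2 : T_MTC) : T_MEA := by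
  intro d q V hd
  have hgood : MeasurableSet {ω : Big d q | GoodB V ω} := (h1 d q V hd).1
  constructor
  · intro i B hB
    have hE : ∀ x : Pt d q, MeasurableSet {ω : Big d q | GoodB V ω ∧ x.2 < ω.1.1 x.1 ∧ x.1.2 = i ∧
        pos ω x ∈ B} := by
      intro x
      refine hgood.inter (MeasurableSet.inter ?_ (MeasurableSet.inter (MeasurableSet.const _) ?_))
      · have hm : Measurable fun ω : Big d q => ω.1.1 x.1 := by fun_prop
        exact measurableSet_lt measurable_const hm
      · exact (measurable_pos x) hB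
    have hm := meas_encard _ hE inferInstance
    refine (Eq.mpr (congrArg _ ?_) hm)
    funext ω
    by_cases hg : GoodB V ω
    · have hinj := (h2 d q V ω hd hg).1
      have hset : ptsB V i ω ∩ B = pos ω '' {x | ω ∈ {ω : Big d q | GoodB V ω ∧ x.2 < ω.1.1 x.1 ∧
          x.1.2 = i ∧ pos ω x ∈ B}} := by
        ext z
        constructor
        · rintro ⟨⟨-, x, hx, hi, rfl⟩, hz⟩
          exact ⟨x, ⟨hg, hx, hi, hz⟩, rfl⟩
        · rintro ⟨x, ⟨-, hx, hi, hz⟩, rfl⟩
          exact ⟨⟨hg, x, hx, hi, rfl⟩, hz⟩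
      rw [hset, hinj.encard_image]
    · have e1 : ptsB V i ω ∩ B = ∅ := by
        ext z
        simp only [Set.mem_inter_iff, Set.mem_empty_iff_false, iff_false]
        rintro ⟨⟨h, -⟩, -⟩
        exact hg h
      have e2 : {x | ω ∈ {ω : Big d q | GoodB V ω ∧ x.2 < ω.1.1 x.1 ∧ x.1.2 = i ∧ pos ω x ∈ B}} =
          (∅ : Set (Pt d q)) := by
        ext z
        simp only [Set.mem_empty_iff_false, iff_false]
        rintro ⟨h, -⟩
        exact hg h
      rw [e1, e2]
      simp
  · intro S hS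
    have hE : ∀ G : Finset (Pt d q), MeasurableSet {ω : Big d q | (GoodB V ω ∧ famB ω G ∈ S) ∧
        ∃ x ∈ G, ω.1.2 x = G} := by
      intro G
      have hA : MeasurableSet {ω : Big d q | ∃ x ∈ G, ω.1.2 x = G} := ?_
      · exact (measurableSet_famB h1 h2 hd V G S hS).inter hA
      have : {ω : Big d q | ∃ x ∈ G, ω.1.2 x = G} = ⋃ x ∈ G, {ω : Big d q | ω.1.2 x = G} := by
        ext ω
        simp
      rw [this]
      refine MeasurableSet.biUnion G.countable_toSet fun x _ => ?_
      have hm : Measurable fun ω : Big d q => ω.1.2 x := by fun_prop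
      exact hm (MeasurableSet.singleton G)
    have hm := meas_encard _ hE inferInstance
    refine (Eq.mpr (congrArg _ ?_) hm)
    funext ω
    by_cases hg : GoodB V ω
    · have hinj := (h2 d q V ω hd hg).1
      have hinj2 : Function.Injective (famB ω) := fun G G' h => Finset.image_injective hinj h
      have hset : matB V ω ∩ S = famB ω '' {G | ω ∈ {ω : Big d q | (GoodB V ω ∧ famB ω G ∈ S) ∧
          ∃ x ∈ G, ω.1.2 x = G}} := by
        ext z
        constructor
        · rintro ⟨⟨-, x, hx, rfl⟩, hz⟩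
          exact ⟨ω.1.2 x, ⟨⟨hg, hz⟩, x, (hg.2.2.2.1 x hx).1, rfl⟩, rfl⟩
        · rintro ⟨G, ⟨⟨-, hG⟩, x, hx, hxG⟩, rfl⟩
          refine ⟨⟨hg, x, ?_, ?_⟩, hG⟩
          · rw [hxG]
            exact ⟨x, hx⟩
          · rw [hxG]
      rw [hset, hinj2.encard_image]
    · have e1 : matB V ω ∩ S = ∅ := by
        ext z
        simp only [Set.mem_inter_iff, Set.mem_empty_iff_false, iff_false]
        rintro ⟨⟨h, -⟩, -⟩
        exact hg h
      have e2 : {G | ω ∈ {ω : Big d q | (GoodB V ω ∧ famB ω G ∈ S) ∧ ∃ x ∈ G, ω.1.2 x = G}} =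
          (∅ : Set (Finset (Pt d q))) := by
        ext z
        simp only [Set.mem_empty_iff_false, iff_false]
        rintro ⟨⟨h, -⟩, -⟩
        exact hg h
      rw [e1, e2]
      simp

end

end Pool.Agent.H4.MC.MEA
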