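import Pool.Agent.H89.MC.Targets

/-!
mc_modules MOT (MP_5da387_pr): the motion preserves the law.
-/

namespace Pool.Agent.H4.MC.MOT

open Classical MeasureTheory ProbabilityTheory
open Pool.Agent.H96.MC

noncomputable section

variable {d q : ℕ}

lemma trP_neg (c : Cell d) (x : Pt d q) : trP (-(-c)) (trP (-c) x) = x := by
  obtain ⟨⟨a, i⟩, k⟩ := x
  simp [trP]

lemma reindex_mp {κ : Type} {Y : Type} [MeasurableSpace Y] (ν : Measure Y) [IsProbabilityMeasure ν]
    (e g : κ → κ) (he : ∀ x, g (e x) = x) :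
    MeasurePreserving (fun (U : κ → Y) x => U (e x)) (Measure.infinitePi fun _ : κ => ν)
      (Measure.infinitePi fun _ : κ => ν) := by
  have hm : Measurable (fun (U : κ → Y) x => U (e x)) :=
    measurable_pi_lambda _ fun x => measurable_pi_apply (e x)
  have hinj : Function.Injective e := fun x y h => by rw [← he x, ← he y, h]
  refine ⟨hm, ?_⟩
  refine Measure.eq_infinitePi _ ?_
  intro s (t : κ → Set Y) ht
  rw [Measure.map_apply hm (MeasurableSet.pi s.countable_toSet fun i _ => ht i)]
  have hset : (fun (U : κ → Y) x => U (e x)) ⁻¹' (Set.pi (s : Set κ) t) =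
      Set.pi ((s.image e : Finset κ) : Set κ) (fun j => t (g j)) := by
    ext U
    simp only [Set.mem_preimage, Set.mem_pi, Finset.coe_image, Set.forall_mem_image, he]
  rw [hset, Measure.infinitePi_pi _ (fun j _ => ht _), Finset.prod_image hinj.injOn]
  simp only [he]

/-- **MOT** -/
theorem mot_mp (h1 : T_SHX) (h2 : T_UNI) : T_MOT := by
  intro d q μ v hμ hinv
  obtain ⟨hprob, -, hfr, -⟩ := h2 d
  obtain ⟨hcont, -⟩ := h1 d q
  have := hprob
  set ρ : Measure (Pt d q → Fin d → ℝ) := Measure.infinitePi fun _ : Pt d q => unif d with hρ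
  have : IsProbabilityMeasure ρ := by rw [hρ]; infer_instance
  let bb : (Fin d → ℝ) → Cell d := fun ζ l => ⌊ζ l + v l⌋
  have hbb : Measurable bb := measurable_pi_lambda _ fun l =>
    Int.measurable_floor.comp ((measurable_pi_apply l).add_const _)
  let G : Cell d → XX d q × (Pt d q → Fin d → ℝ) → XX d q × (Pt d q → Fin d → ℝ) :=
    fun c p => (shX (-c) p.1, fun x => p.2 (trP (-c) x))
  have hG : ∀ c, MeasurePreserving (G c) (μ.prod ρ) (μ.prod ρ) := by
    intro c
    have e1 : MeasurePreserving (shX (q := q) (-c)) μ μ := ⟨(hcont (-c)).measurable, hinv (-c)⟩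
    have e2 := reindex_mp (unif d) (trP (q := q) (-c)) (trP (-(-c))) (trP_neg c)
    exact e1.prod e2
  have hskew : MeasurePreserving
      (fun p : (Fin d → ℝ) × (XX d q × (Pt d q → Fin d → ℝ)) =>
        ((fun l => Int.fract (p.1 l + v l)), G (bb p.1) p.2))
      ((unif d).prod (μ.prod ρ)) ((unif d).prod (μ.prod ρ)) := by
    refine MeasurePreserving.skew_product (g := fun ζ p => G (bb ζ) p) (hfr v) ?_ ?_
    · have hm : Measurable (fun p : Cell d × (XX d q × (Pt d q → Fin d → ℝ)) => G p.1 p.2) :=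
        measurable_from_prod_countable_right fun c => (hG c).measurable
      exact hm.comp ((hbb.comp measurable_fst).prodMk measurable_snd)
    · exact Filter.Eventually.of_forall fun ζ => (hG (bb ζ)).map_eq
  have hA : MeasurePreserving (fun ω : Big d q => (ω.2.2, (ω.1, ω.2.1)))
      (bigLaw μ) ((unif d).prod (μ.prod ρ)) := by
    have e1 : MeasurePreserving (MeasurableEquiv.prodAssoc :
        (XX d q × (Pt d q → Fin d → ℝ)) × (Fin d → ℝ) ≃ᵐ _) ((μ.prod ρ).prod (unif d))
        (bigLaw μ) := measurePreserving_prodAssoc μ ρ (unif d)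
    have e2 := (Measure.measurePreserving_swap (μ := μ.prod ρ) (ν := unif d)).comp e1.symm
    exact e2
  have hB : MeasurePreserving (fun p : (Fin d → ℝ) × (XX d q × (Pt d q → Fin d → ℝ)) =>
        ((p.2.1, p.2.2, p.1) : Big d q)) ((unif d).prod (μ.prod ρ)) (bigLaw μ) := by
    have e1 : MeasurePreserving (MeasurableEquiv.prodAssoc :
        (XX d q × (Pt d q → Fin d → ℝ)) × (Fin d → ℝ) ≃ᵐ _) ((μ.prod ρ).prod (unif d))
        (bigLaw μ) := measurePreserving_prodAssoc μ ρ (unif d)
    exact e1.comp (Measure.measurePreserving_swap (μ := unif d) (ν := μ.prod ρ))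
  exact (hB.comp hskew).comp hA

end

end Pool.Agent.H4.MC.MOT
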