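import Pool.Agent.H96.MC.Targets3

/-!
# MP_5da387_pr, module NUMD: the recursion inequality of the parameters (helper4)
-/

namespace Pool.Agent.H4.MC

open Classical Pool.Agent.H96.MC Filter Topology

noncomputable section

lemma exp_sqrt_ge (j : ℕ) : 1 + (j : ℝ) / 2 ≤ Real.exp (Real.sqrt j) := by
  have h1 := Real.quadratic_le_exp_of_nonneg (Real.sqrt_nonneg (j : ℝ))
  rw [Real.sq_sqrt (Nat.cast_nonneg j)] at h1
  have := Real.sqrt_nonneg (j : ℝ)
  linarith

lemma lS_ge {l0 m j : ℕ} (hm : 1 ≤ m) (hj : 1 ≤ j) :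
    (l0 : ℝ) * Real.exp (Real.sqrt j) ≤ (lS l0 m j : ℝ) := by
  unfold lS
  rw [if_neg (by omega)]
  push_cast
  apply mul_le_mul_of_nonneg_left _ (Nat.cast_nonneg l0)
  refine le_trans ?_ (Nat.le_ceil _)
  have hm' : (1 : ℝ) ≤ m := by exact_mod_cast hm
  have := Real.exp_pos (Real.sqrt j)
  nlinarith

lemma log_eventually (c : ℝ) (hc : 0 < c) : ∀ᶠ l0 : ℕ in atTop, Real.log (l0 : ℝ) ≤ c * l0 := by
  have h := Real.isLittleO_log_id_atTop.bound hc
  have h2 := (tendsto_natCast_atTop_atTop (R := ℝ)).eventually h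
  filter_upwards [h2] with l0 hl
  simp only [id_eq, Real.norm_eq_abs] at hl
  rw [abs_of_nonneg (Nat.cast_nonneg l0 : (0 : ℝ) ≤ l0)] at hl
  exact (le_abs_self _).trans hl

lemma const_eventually (c K : ℝ) (hc : 0 < c) : ∀ᶠ l0 : ℕ in atTop, K ≤ c * l0 := by
  have h : Tendsto (fun l0 : ℕ => c * (l0 : ℝ)) atTop atTop :=
    (tendsto_natCast_atTop_atTop (R := ℝ)).const_mul_atTop hc
  exact h.eventually (eventually_ge_atTop K)

/-- **NUMD** -/
theorem numd : T_NUMD := by
  intro d a cT ϖ n0 hd ha hcT hcT1 _ _ hn0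
  have hd0 : (0 : ℝ) < d := by exact_mod_cast hd
  refine (eventually_ge_atTop (d + 2)).mono fun Ns hNs => ?_
  refine (eventually_ge_atTop 1).mono fun m hm => ?_
  refine (eventually_ge_atTop 1).mono fun C hC => ?_
  filter_upwards [eventually_ge_atTop 1, log_eventually (cT / (8 * d)) (by positivity),
    const_eventually (cT / (8 * d)) (Real.log 65) (by positivity),
    const_eventually (cT / (8 * d)) (Real.log C) (by positivity),
    const_eventually (3 / 4) (3 * ((n0 Ns : ℝ) + 1)) (by norm_num)]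
    with l0 hl0 hlog h65 hlogC hE3
  refine ⟨fun N => 8 * (n0 N + 1), ?_⟩
  intro Nf hslow hlow j hj
  obtain ⟨hmono, hN0, _, _, hslow⟩ := hslow
  have hl0R : (1 : ℝ) ≤ l0 := by exact_mod_cast hl0
  have hCR : (1 : ℝ) ≤ C := by exact_mod_cast hC
  have hN : d + 2 ≤ Nf j := by
    have := hmono (Nat.zero_le j)
    omega
  set N := Nf j with hNdef
  set l : ℝ := (lS l0 m j : ℝ) with hl
  have hexp := exp_sqrt_ge j
  have hj0 : (0 : ℝ) ≤ j := Nat.cast_nonneg j
  have hl1 : (l0 : ℝ) * (1 + (j : ℝ) / 2) ≤ l := by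
    refine le_trans ?_ (lS_ge hm hj)
    exact mul_le_mul_of_nonneg_left hexp (by linarith)
  have hl2 : (l0 : ℝ) ≤ l := by nlinarith
  have hl3 : 1 + (j : ℝ) / 2 ≤ l := by nlinarith
  have hlpos : 1 ≤ l := by linarith
  have hld : l ≤ l ^ d := by
    calc l = l ^ 1 := (pow_one l).symm
      _ ≤ l ^ d := pow_le_pow_right₀ hlpos hd
  have hldpos : 0 < l ^ d := by positivity
  have hld1 : 1 ≤ l ^ d := by linarith
  -- the entropy factor
  have hA : (4 * (AS l0 C j : ℝ) + 1) ^ d ≤ Real.exp (cT * l ^ d / 4) := by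
    have hA1 : 4 * (AS l0 C j : ℝ) + 1 ≤ 65 * l0 * (C : ℝ) ^ j := by
      unfold AS
      push_cast
      have : (1 : ℝ) ≤ l0 * (C : ℝ) ^ j := by
        have := one_le_pow₀ hCR (n := j)
        nlinarith
      linarith
    have hA2 : 65 * l0 * (C : ℝ) ^ j = Real.exp (Real.log 65 + Real.log l0 + j * Real.log C) := by
      rw [Real.exp_add, Real.exp_add, Real.exp_log (by norm_num), Real.exp_log (by linarith),
        Real.exp_nat_mul, Real.exp_log (by linarith)]
    have hA3 : (4 * (AS l0 C j : ℝ) + 1) ^ d ≤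
        Real.exp (d * (Real.log 65 + Real.log l0 + j * Real.log C)) := by
      rw [Real.exp_nat_mul, ← hA2]
      exact pow_le_pow_left₀ (by positivity) hA1 d
    refine hA3.trans (Real.exp_le_exp.mpr ?_)
    have h1 : Real.log 65 + Real.log l0 + j * Real.log C ≤
        cT / (8 * d) * l0 + cT / (8 * d) * l0 + j * (cT / (8 * d) * l0) := by
      have := mul_le_mul_of_nonneg_left hlogC hj0
      linarith
    have h2 : (d : ℝ) * (cT / (8 * d) * l0 + cT / (8 * d) * l0 + j * (cT / (8 * d) * l0)) =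
        cT / 4 * (l0 * (1 + (j : ℝ) / 2)) := by
      field_simp
      ring
    calc (d : ℝ) * (Real.log 65 + Real.log l0 + j * Real.log C)
        ≤ d * (cT / (8 * d) * l0 + cT / (8 * d) * l0 + j * (cT / (8 * d) * l0)) :=
          mul_le_mul_of_nonneg_left h1 hd0.le
      _ = cT / 4 * (l0 * (1 + (j : ℝ) / 2)) := h2
      _ ≤ cT / 4 * l ^ d := by
          apply mul_le_mul_of_nonneg_left _ (by positivity)
          linarith
      _ = cT * l ^ d / 4 := by ring
  have hth : thS a cT d l0 m Nf j = (a * ((N : ℝ) - d) ^ d - 4) * l ^ d := by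
    unfold thS
    rw [if_neg (by omega)]
  set θ := thS a cT d l0 m Nf j with hθ
  have hNR : (d : ℝ) + 2 ≤ N := by exact_mod_cast hN
  have hlog3 : Real.log 3 ≤ 3 / 2 := by
    rw [Real.log_le_iff_le_exp (by norm_num)]
    have := Real.quadratic_le_exp_of_nonneg (x := 3 / 2) (by norm_num)
    linarith
  have hthird : Real.exp (-θ) / 3 = Real.exp (-θ - Real.log 3) := by
    rw [Real.exp_sub, Real.exp_log (by norm_num)]
  -- first term
  have hfirst : ((4 * (AS l0 C j : ℝ) + 1) ^ d * Real.exp (-(cT * l ^ d))) ^ (n0 N + 1) ≤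
      Real.exp (-θ) / 3 := by
    have h1 : (4 * (AS l0 C j : ℝ) + 1) ^ d * Real.exp (-(cT * l ^ d)) ≤
        Real.exp (-(3 / 4 * cT * l ^ d)) := by
      calc (4 * (AS l0 C j : ℝ) + 1) ^ d * Real.exp (-(cT * l ^ d))
          ≤ Real.exp (cT * l ^ d / 4) * Real.exp (-(cT * l ^ d)) :=
            mul_le_mul_of_nonneg_right hA (Real.exp_pos _).le
        _ = Real.exp (-(3 / 4 * cT * l ^ d)) := by
            rw [← Real.exp_add]; congr 1; ring
    have h2 := pow_le_pow_left₀ (by positivity) h1 (n0 N + 1)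
    refine h2.trans ?_
    rw [← Real.exp_nat_mul, hthird]
    apply Real.exp_le_exp.mpr
    have h3 := hn0 N hN
    have h4 : ((N : ℝ) - d) ^ d ≤ ((N : ℝ) + d + 1) ^ d :=
      pow_le_pow_left₀ (by linarith) (by linarith) d
    have h5 : 1 ≤ ((N : ℝ) + d + 1) ^ d := one_le_pow₀ (by linarith)
    have h6 : θ ≤ a * ((N : ℝ) + d + 1) ^ d * l ^ d := by
      rw [hth]
      apply mul_le_mul_of_nonneg_right _ hldpos.le
      have := mul_le_mul_of_nonneg_left h4 ha.le
      linarith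
    have h7 : 3 / 4 * (2 * (a + 1) * ((N : ℝ) + d + 1) ^ d) * l ^ d ≤
        3 / 4 * (cT * ((n0 N : ℝ) + 1)) * l ^ d := by
      apply mul_le_mul_of_nonneg_right _ hldpos.le
      linarith
    have h8 : 1 ≤ ((N : ℝ) + d + 1) ^ d * l ^ d := one_le_mul_of_one_le_of_one_le h5 hld1
    have h9 : 0 ≤ a * (((N : ℝ) + d + 1) ^ d * l ^ d) := by positivity
    push_cast
    nlinarith
  -- second term
  have hn0exp : 3 * ((n0 N : ℝ) + 1) ≤ Real.exp (3 / 4 * l ^ d) := by
    rcases hslow j with h | h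
    · rw [← hNdef] at h
      rw [h]
      have h1 : 3 / 4 * (l0 : ℝ) ≤ 3 / 4 * l ^ d := by linarith
      have h2 := Real.add_one_le_exp (3 / 4 * l ^ d)
      linarith
    · have h1 : (8 * ((n0 N : ℝ) + 1)) ≤ j := by exact_mod_cast h
      have h2 := Real.add_one_le_exp (3 / 4 * l ^ d)
      linarith
  have hsecond : ((n0 N : ℝ) + 1) * (4 * (AS l0 C j : ℝ) + 1) ^ d *
      Real.exp (-((a * ((N : ℝ) - d) ^ d - 3) * l ^ d)) ≤ Real.exp (-θ) / 3 := by
    have h1 : (4 * (AS l0 C j : ℝ) + 1) ^ d ≤ Real.exp (l ^ d / 4) := by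
      refine hA.trans (Real.exp_le_exp.mpr ?_)
      nlinarith
    have h2 : Real.exp (-((a * ((N : ℝ) - d) ^ d - 3) * l ^ d)) =
        Real.exp (-θ) * Real.exp (-(l ^ d)) := by
      rw [← Real.exp_add, hth]; congr 1; ring
    rw [h2]
    calc ((n0 N : ℝ) + 1) * (4 * (AS l0 C j : ℝ) + 1) ^ d *
          (Real.exp (-θ) * Real.exp (-(l ^ d)))
        ≤ ((n0 N : ℝ) + 1) * Real.exp (l ^ d / 4) * (Real.exp (-θ) * Real.exp (-(l ^ d))) := by
          apply mul_le_mul_of_nonneg_right _ (by positivity)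
          exact mul_le_mul_of_nonneg_left h1 (by positivity)
      _ = ((n0 N : ℝ) + 1) * Real.exp (-(3 / 4 * l ^ d)) * Real.exp (-θ) := by
          have : Real.exp (-(3 / 4 * l ^ d)) = Real.exp (l ^ d / 4) * Real.exp (-(l ^ d)) := by
            rw [← Real.exp_add]; congr 1; ring
          rw [this]; ring
      _ ≤ 1 / 3 * Real.exp (-θ) := by
          apply mul_le_mul_of_nonneg_right _ (Real.exp_pos _).le
          rw [Real.exp_neg, ← div_eq_mul_inv, div_le_iff₀ (Real.exp_pos _)]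
          linarith
      _ = Real.exp (-θ) / 3 := by ring
  -- third term
  have hthird' : ∑ k ∈ Finset.Ico (k0S ϖ m C j) j, ((4 * (AS l0 C j : ℝ) + 1) ^ d *
      Real.exp (-(thS a cT d l0 m Nf k))) ^ (kapS a cT d l0 m Nf j k + 1) ≤
      Real.exp (-θ) / 3 := by
    have hterm : ∀ k ∈ Finset.Ico (k0S ϖ m C j) j, ((4 * (AS l0 C j : ℝ) + 1) ^ d *
        Real.exp (-(thS a cT d l0 m Nf k))) ^ (kapS a cT d l0 m Nf j k + 1) ≤
        Real.exp (-θ) / (3 * ((j : ℝ) + 1)) := by
      intro k hk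
      rw [Finset.mem_Ico] at hk
      obtain ⟨hθk, hAk⟩ := hlow j hj k hk.1 hk.2
      set θk := thS a cT d l0 m Nf k with hθk'
      have h1 : (4 * (AS l0 C j : ℝ) + 1) ^ d * Real.exp (-θk) ≤ Real.exp (-(θk / 2)) := by
        calc (4 * (AS l0 C j : ℝ) + 1) ^ d * Real.exp (-θk)
            ≤ Real.exp (θk / 2) * Real.exp (-θk) :=
              mul_le_mul_of_nonneg_right hAk (Real.exp_pos _).le
          _ = Real.exp (-(θk / 2)) := by rw [← Real.exp_add]; congr 1; ring
      have h2 := pow_le_pow_left₀ (by positivity) h1 (kapS a cT d l0 m Nf j k + 1)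
      refine h2.trans ?_
      rw [← Real.exp_nat_mul]
      have h3 : Real.exp (-θ) / (3 * ((j : ℝ) + 1)) =
          Real.exp (-(θ + Real.log (3 * ((j : ℝ) + 1)))) := by
        rw [neg_add, Real.exp_add, Real.exp_neg (Real.log _), Real.exp_log (by positivity),
          div_eq_mul_inv]
      rw [h3]
      apply Real.exp_le_exp.mpr
      have h4 : 2 * (θ + Real.log (3 * ((j : ℝ) + 1))) / θk ≤
          (kapS a cT d l0 m Nf j k : ℝ) := Nat.le_ceil _
      rw [div_le_iff₀ hθk] at h4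
      push_cast
      nlinarith
    calc _ ≤ ∑ k ∈ Finset.Ico (k0S ϖ m C j) j, Real.exp (-θ) / (3 * ((j : ℝ) + 1)) :=
          Finset.sum_le_sum hterm
      _ = ((j - k0S ϖ m C j : ℕ) : ℝ) * (Real.exp (-θ) / (3 * ((j : ℝ) + 1))) := by
          rw [Finset.sum_const, Nat.card_Ico, nsmul_eq_mul]
      _ ≤ ((j : ℝ) + 1) * (Real.exp (-θ) / (3 * ((j : ℝ) + 1))) := by
          apply mul_le_mul_of_nonneg_right _ (by positivity)
          have : ((j - k0S ϖ m C j : ℕ) : ℝ) ≤ (j : ℝ) := by exact_mod_cast Nat.sub_le _ _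
          linarith
      _ = Real.exp (-θ) / 3 := by
          have : (j : ℝ) + 1 ≠ 0 := by positivity
          field_simp
  calc _ ≤ Real.exp (-θ) / 3 + Real.exp (-θ) / 3 + Real.exp (-θ) / 3 :=
        add_le_add (add_le_add hfirst hsecond) hthird'
    _ = Real.exp (-θ) := by ring

end

end Pool.Agent.H4.MC
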