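import Pool.Agent.H4.MC.NUMD

/-!
# MP_5da387_pr, module NUME: the tail sums of the parameters (helper4)
-/

namespace Pool.Agent.H4.MC

open Classical Pool.Agent.H96.MC Filter Topology

noncomputable section

lemma exp_sqrt_sq (j : ℕ) : (j : ℝ) ^ 2 / 24 ≤ Real.exp (Real.sqrt j) := by
  have h := Real.pow_div_factorial_le_exp (Real.sqrt j) (Real.sqrt_nonneg _) 4
  have h2 : Real.sqrt (j : ℝ) ^ 4 = (j : ℝ) ^ 2 := by
    have : Real.sqrt (j : ℝ) ^ 4 = (Real.sqrt (j : ℝ) ^ 2) ^ 2 := by ring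
    rw [this, Real.sq_sqrt (Nat.cast_nonneg j)]
  rw [h2] at h
  have h3 : ((Nat.factorial 4 : ℕ) : ℝ) = 24 := by norm_num [Nat.factorial]
  rwa [h3] at h

lemma lS_ge_exp {l0 m j : ℕ} (hl0 : 1 ≤ l0) (hm : 1 ≤ m) (hj : 1 ≤ j) :
    Real.exp (Real.sqrt j) ≤ (lS l0 m j : ℝ) := by
  refine le_trans ?_ (lS_ge hm hj)
  have hl0R : (1 : ℝ) ≤ l0 := by exact_mod_cast hl0
  have := Real.exp_pos (Real.sqrt (j : ℝ))
  nlinarith

/-- exponential bound for the zone sizes -/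
lemma AS_bound (d : ℕ) {l0 C : ℕ} (hl0 : 1 ≤ l0) (hC : 1 ≤ C) {j : ℕ} (hj : 1 ≤ j) :
    (2 * (AS l0 C j : ℝ) + 1) ^ d ≤
      Real.exp (d * (Real.log (33 * l0) + Real.log C) * j) := by
  have hl0R : (1 : ℝ) ≤ l0 := by exact_mod_cast hl0
  have hCR : (1 : ℝ) ≤ C := by exact_mod_cast hC
  have hjR : (1 : ℝ) ≤ j := by exact_mod_cast hj
  have hA1 : 2 * (AS l0 C j : ℝ) + 1 ≤ 33 * l0 * (C : ℝ) ^ j := by
    unfold AS
    push_cast
    have : (1 : ℝ) ≤ l0 * (C : ℝ) ^ j := by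
      have := one_le_pow₀ hCR (n := j)
      nlinarith
    linarith
  have hA2 : 33 * l0 * (C : ℝ) ^ j = Real.exp (Real.log (33 * l0) + j * Real.log C) := by
    rw [Real.exp_add, Real.exp_log (by positivity), Real.exp_nat_mul, Real.exp_log (by linarith)]
  have hlog : 0 ≤ Real.log (33 * (l0 : ℝ)) := Real.log_nonneg (by linarith)
  calc (2 * (AS l0 C j : ℝ) + 1) ^ d ≤ (33 * l0 * (C : ℝ) ^ j) ^ d :=
        pow_le_pow_left₀ (by positivity) hA1 d
    _ = Real.exp (d * (Real.log (33 * l0) + j * Real.log C)) := by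
        rw [hA2, Real.exp_nat_mul]
    _ ≤ _ := by
        apply Real.exp_le_exp.mpr
        have h1 : Real.log (33 * l0) + j * Real.log C ≤
            (Real.log (33 * l0) + Real.log C) * j := by nlinarith
        calc (d : ℝ) * (Real.log (33 * l0) + j * Real.log C)
            ≤ d * ((Real.log (33 * l0) + Real.log C) * j) :=
              mul_le_mul_of_nonneg_left h1 (Nat.cast_nonneg d)
          _ = _ := by ring

lemma sqrt_diff : Tendsto (fun i : ℕ => Real.sqrt i - Real.sqrt ((i + 1 : ℕ) : ℝ)) atTop (𝓝 0) := by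
  have h1 : Tendsto (fun i : ℕ => -(1 / Real.sqrt ((i + 1 : ℕ) : ℝ))) atTop (𝓝 0) := by
    have h2 : Tendsto (fun i : ℕ => Real.sqrt ((i + 1 : ℕ) : ℝ)) atTop atTop :=
      Real.tendsto_sqrt_atTop.comp
        ((tendsto_natCast_atTop_atTop (R := ℝ)).comp (tendsto_add_atTop_nat 1))
    have h3 := (tendsto_const_nhds (x := (1 : ℝ))).div_atTop h2
    simpa using h3.neg
  refine tendsto_of_tendsto_of_tendsto_of_le_of_le h1 tendsto_const_nhds ?_ ?_
  · intro i
    have ha : 0 < Real.sqrt ((i + 1 : ℕ) : ℝ) := Real.sqrt_pos.mpr (by positivity)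
    have hb : 0 ≤ Real.sqrt (i : ℝ) := Real.sqrt_nonneg _
    have ha2 : Real.sqrt ((i + 1 : ℕ) : ℝ) ^ 2 = (i : ℝ) + 1 := by
      rw [Real.sq_sqrt (by positivity)]; push_cast; ring
    have hb2 : Real.sqrt (i : ℝ) ^ 2 = i := Real.sq_sqrt (Nat.cast_nonneg i)
    have hle : Real.sqrt (i : ℝ) ≤ Real.sqrt ((i + 1 : ℕ) : ℝ) :=
      Real.sqrt_le_sqrt (by push_cast; linarith)
    show -(1 / Real.sqrt ((i + 1 : ℕ) : ℝ)) ≤ Real.sqrt i - Real.sqrt ((i + 1 : ℕ) : ℝ)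
    rw [neg_le_iff_add_nonneg, ← sub_le_iff_le_add'] 
    rw [zero_sub, neg_sub, le_div_iff₀ ha]
    nlinarith
  · intro i
    have hle : Real.sqrt (i : ℝ) ≤ Real.sqrt ((i + 1 : ℕ) : ℝ) :=
      Real.sqrt_le_sqrt (by push_cast; linarith)
    show Real.sqrt i - Real.sqrt ((i + 1 : ℕ) : ℝ) ≤ 0
    linarith

lemma lS_ratio {l0 m : ℕ} (hl0 : 1 ≤ l0) (hm : 1 ≤ m) :
    Tendsto (fun i : ℕ => (lS l0 m i : ℝ) / (lS l0 m (i + 1) : ℝ)) atTop (𝓝 1) := by
  have hl0R : (1 : ℝ) ≤ l0 := by exact_mod_cast hl0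
  have hmR : (1 : ℝ) ≤ m := by exact_mod_cast hm
  let y : ℕ → ℝ := fun i => (m : ℝ) * Real.exp (Real.sqrt i)
  have hy0 : ∀ i, 0 < y i := fun i => by
    have := Real.exp_pos (Real.sqrt (i : ℝ))
    show 0 < (m : ℝ) * Real.exp (Real.sqrt i)
    positivity
  have hy : Tendsto y atTop atTop := by
    have h1 : Tendsto (fun i : ℕ => Real.exp (Real.sqrt i)) atTop atTop :=
      Real.tendsto_exp_atTop.comp
        (Real.tendsto_sqrt_atTop.comp (tendsto_natCast_atTop_atTop (R := ℝ)))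
    exact h1.const_mul_atTop (by linarith)
  have hc : Tendsto (fun i => (⌈y i⌉₊ : ℝ) / y i) atTop (𝓝 1) :=
    (tendsto_nat_ceil_div_atTop (R := ℝ)).comp hy
  have hc1 : Tendsto (fun i => (⌈y (i + 1)⌉₊ : ℝ) / y (i + 1)) atTop (𝓝 1) :=
    hc.comp (tendsto_add_atTop_nat 1)
  have hr : Tendsto (fun i => y i / y (i + 1)) atTop (𝓝 1) := by
    have h1 := (Real.continuous_exp.tendsto 0).comp sqrt_diff
    rw [Real.exp_zero] at h1
    refine h1.congr fun i => ?_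
    simp only [Function.comp_apply, y]
    rw [Real.exp_sub, mul_div_mul_left _ _ (by linarith)]
  have h := (hc.mul hr).div hc1 one_ne_zero
  rw [mul_one, div_one] at h
  refine h.congr' ?_
  filter_upwards [eventually_ge_atTop 1] with i hi
  have h1 := (hy0 i).ne'
  have h2 := (hy0 (i + 1)).ne'
  have h3 : (⌈y (i + 1)⌉₊ : ℝ) ≠ 0 := by
    have := Nat.ceil_pos.mpr (hy0 (i + 1))
    exact_mod_cast this.ne'
  have e1 : (lS l0 m i : ℝ) = l0 * (⌈y i⌉₊ : ℝ) := by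
    unfold lS
    rw [if_neg (by omega)]
    push_cast
    rfl
  have e2 : (lS l0 m (i + 1) : ℝ) = l0 * (⌈y (i + 1)⌉₊ : ℝ) := by
    unfold lS
    rw [if_neg (by omega)]
    push_cast
    simp only [y]
    push_cast
    rfl
  have h4 : (l0 : ℝ) ≠ 0 := by linarith
  rw [e1, e2]
  show ((⌈y i⌉₊ : ℝ) / y i * (y i / y (i + 1))) / ((⌈y (i + 1)⌉₊ : ℝ) / y (i + 1)) = _
  generalize hz : (⌈y i⌉₊ : ℝ) = z1 at *
  generalize hz2 : (⌈y (i + 1)⌉₊ : ℝ) = z2 at *
  generalize y i = u at *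
  generalize y (i + 1) = v at *
  field_simp

lemma H_lim (d : ℕ) (a : ℝ) (hd : 1 ≤ d) :
    Tendsto (fun x : ℝ => (a * (x - (d + 1)) ^ d - 4) / (x + (d + 1)) ^ d) atTop (𝓝 a) := by
  have hinf : Tendsto (fun x : ℝ => x + ((d : ℝ) + 1)) atTop atTop :=
    tendsto_atTop_add_const_right _ _ tendsto_id
  have h1 : Tendsto (fun x : ℝ => 2 * ((d : ℝ) + 1) / (x + ((d : ℝ) + 1))) atTop (𝓝 0) :=
    tendsto_const_nhds.div_atTop hinf
  have h2 : Tendsto (fun x : ℝ => 4 / (x + ((d : ℝ) + 1)) ^ d) atTop (𝓝 0) :=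
    tendsto_const_nhds.div_atTop ((tendsto_pow_atTop (by omega)).comp hinf)
  have h3 : Tendsto (fun x : ℝ => a * (1 - 2 * ((d : ℝ) + 1) / (x + ((d : ℝ) + 1))) ^ d -
      4 / (x + ((d : ℝ) + 1)) ^ d) atTop (𝓝 a) := by
    have := (((tendsto_const_nhds (x := (1 : ℝ))).sub h1).pow d).const_mul a
    have h4 := this.sub h2
    simpa using h4
  refine h3.congr' ?_
  filter_upwards [eventually_gt_atTop 0] with x hx
  have h5 : x + ((d : ℝ) + 1) ≠ 0 := by positivity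
  have h6 : 1 - 2 * ((d : ℝ) + 1) / (x + ((d : ℝ) + 1)) =
      (x - ((d : ℝ) + 1)) / (x + ((d : ℝ) + 1)) := by
    field_simp
    ring
  rw [h6, div_pow, ← mul_div_assoc, ← sub_div]

/-- **NUME** -/
theorem nume : T_NUME := by
  intro d a cT hd ha hcT hcT1
  have hd0 : (0 : ℝ) < d := by exact_mod_cast hd
  refine (eventually_ge_atTop (d + 1 + ⌈5 / a⌉₊)).mono fun Ns hNs => ?_
  refine (eventually_ge_atTop 1).mono fun m hm => ?_
  refine (eventually_ge_atTop 1).mono fun C hC => ?_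
  refine (eventually_ge_atTop 1).mono fun l0 hl0 => ?_
  refine ⟨fun _ => 0, ?_⟩
  intro Nf hslow
  obtain ⟨hmono, hN0, hstep, hNinf, -⟩ := hslow
  have hl0R : (1 : ℝ) ≤ l0 := by exact_mod_cast hl0
  have hCR : (1 : ℝ) ≤ C := by exact_mod_cast hC
  set K : ℝ := d * (Real.log (33 * l0) + Real.log C) with hK
  have hK0 : 0 ≤ K := by
    have h1 : 0 ≤ Real.log (33 * (l0 : ℝ)) := Real.log_nonneg (by linarith)
    have h2 : 0 ≤ Real.log (C : ℝ) := Real.log_nonneg hCR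
    positivity
  have hAb : ∀ j : ℕ, 1 ≤ j → (2 * (AS l0 C j : ℝ) + 1) ^ d ≤ Real.exp (K * j) := fun j hj =>
    AS_bound d hl0 hC hj
  have hNj : ∀ j, d + 1 + ⌈5 / a⌉₊ ≤ Nf j := fun j => by
    have := hmono (Nat.zero_le j)
    omega
  have hl1 : ∀ j : ℕ, 1 ≤ j → (j : ℝ) ^ 2 / 24 ≤ (lS l0 m j : ℝ) := fun j hj =>
    (exp_sqrt_sq j).trans (lS_ge_exp hl0 hm hj)
  have hlone : ∀ j : ℕ, 1 ≤ (lS l0 m j : ℝ) := by
    intro j
    by_cases hj : j = 0
    · unfold lS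
      rw [if_pos hj]
      exact hl0R
    · refine le_trans ?_ (lS_ge_exp hl0 hm (by omega : 1 ≤ j))
      have := exp_sqrt_ge j
      have h2 : (0 : ℝ) ≤ j := Nat.cast_nonneg j
      linarith
  have hNfac : ∀ j, 1 ≤ a * ((Nf j : ℝ) - d) ^ d - 4 := by
    intro j
    have h1 : (d : ℝ) + 1 + (⌈5 / a⌉₊ : ℝ) ≤ Nf j := by exact_mod_cast hNj j
    have h2 : 5 / a ≤ (⌈5 / a⌉₊ : ℝ) := Nat.le_ceil _
    have h3 : 1 ≤ (Nf j : ℝ) - d := by
      have : (0 : ℝ) ≤ (⌈5 / a⌉₊ : ℝ) := Nat.cast_nonneg _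
      linarith
    have h4 : (Nf j : ℝ) - d ≤ ((Nf j : ℝ) - d) ^ d := by
      calc (Nf j : ℝ) - d = ((Nf j : ℝ) - d) ^ 1 := (pow_one _).symm
        _ ≤ _ := pow_le_pow_right₀ h3 hd
    have h5 : 5 ≤ a * ((Nf j : ℝ) - d) := by
      have h6 : 5 / a ≤ (Nf j : ℝ) - d := by linarith
      rw [div_le_iff₀ ha] at h6
      linarith
    have := mul_le_mul_of_nonneg_left h4 ha.le
    linarith
  have hth : ∀ j : ℕ, 1 ≤ j → thS a cT d l0 m Nf j =
      (a * ((Nf j : ℝ) - d) ^ d - 4) * (lS l0 m j : ℝ) ^ d := by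
    intro j hj
    unfold thS
    rw [if_neg (by omega)]
  have hlpow : ∀ j : ℕ, (lS l0 m j : ℝ) ≤ (lS l0 m j : ℝ) ^ d := by
    intro j
    calc (lS l0 m j : ℝ) = (lS l0 m j : ℝ) ^ 1 := (pow_one _).symm
      _ ≤ _ := pow_le_pow_right₀ (hlone j) hd
  have hthge : ∀ j : ℕ, 1 ≤ j → (j : ℝ) ^ 2 / 24 ≤ thS a cT d l0 m Nf j := by
    intro j hj
    rw [hth j hj]
    have h1 := hNfac j
    have h2 := hlpow j
    have h3 := hl1 j hj
    have h4 : 0 < (lS l0 m j : ℝ) ^ d := by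
      have := hlone j
      positivity
    nlinarith
  refine ⟨?_, ?_⟩
  · -- part 1
    have h1 : Tendsto (fun J : ℕ => Real.exp (-(J : ℝ))) atTop (𝓝 0) :=
      Real.tendsto_exp_neg_atTop_nhds_zero.comp tendsto_natCast_atTop_atTop
    refine tendsto_of_tendsto_of_tendsto_of_le_of_le' tendsto_const_nhds h1
      (Eventually.of_forall fun J => by positivity) ?_
    filter_upwards [eventually_ge_atTop (⌈24 * (2 * K + 1)⌉₊ + 1)] with J hJ
    have hJ1 : 1 ≤ J := by omega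
    have hJR : (1 : ℝ) ≤ J := by exact_mod_cast hJ1
    have hJK : 24 * (2 * K + 1) ≤ (J : ℝ) := by
      refine (Nat.le_ceil _).trans ?_
      exact_mod_cast (by omega : ⌈24 * (2 * K + 1)⌉₊ ≤ J)
    have h2 := hAb (J + 1) (by omega)
    have h3 := hthge J hJ1
    calc (2 * (AS l0 C (J + 1) : ℝ) + 1) ^ d * Real.exp (-(thS a cT d l0 m Nf J))
        ≤ Real.exp (K * ((J + 1 : ℕ) : ℝ)) * Real.exp (-((J : ℝ) ^ 2 / 24)) := by
          apply mul_le_mul h2 _ (Real.exp_pos _).le (Real.exp_pos _).le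
          exact Real.exp_le_exp.mpr (by linarith)
      _ = Real.exp (K * ((J : ℝ) + 1) - (J : ℝ) ^ 2 / 24) := by
          rw [← Real.exp_add]; push_cast; congr 1
      _ ≤ Real.exp (-(J : ℝ)) := by
          apply Real.exp_le_exp.mpr
          nlinarith
  · -- part 2
    intro ε0 hε0
    set ε := min ε0 (a / 2) with hεdef
    have hε : 0 < ε := lt_min hε0 (by linarith)
    have hεle : ε ≤ ε0 := min_le_left _ _
    have hεa : ε ≤ a / 2 := min_le_right _ _
    let R : ℕ → ℝ := fun j => (lS l0 m j : ℝ) * ((Nf j : ℝ) + d + 1)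
    have hRl : ∀ j, (lS l0 m j : ℝ) ≤ R j := by
      intro j
      show (lS l0 m j : ℝ) ≤ (lS l0 m j : ℝ) * ((Nf j : ℝ) + d + 1)
      have h1 := hlone j
      have h2 : (0 : ℝ) ≤ Nf j := Nat.cast_nonneg _
      nlinarith
    have hR1 : ∀ j, 1 ≤ R j := fun j => (hlone j).trans (hRl j)
    have hRpow : ∀ j, R j ≤ R j ^ d := by
      intro j
      calc R j = R j ^ 1 := (pow_one _).symm
        _ ≤ _ := pow_le_pow_right₀ (hR1 j) hd
    -- the limit of the ratio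
    have hG : Tendsto (fun i : ℕ => (a * ((Nf (i + 1) : ℝ) - (d + 1)) ^ d - 4) /
        ((Nf (i + 1) : ℝ) + (d + 1)) ^ d * ((lS l0 m i : ℝ) / (lS l0 m (i + 1) : ℝ)) ^ d)
        atTop (𝓝 a) := by
      have h1 : Tendsto (fun i : ℕ => (Nf (i + 1) : ℝ)) atTop atTop :=
        (tendsto_natCast_atTop_atTop (R := ℝ)).comp (hNinf.comp (tendsto_add_atTop_nat 1))
      have h2 := (H_lim d a hd).comp h1
      have h3 := h2.mul ((lS_ratio hl0 hm).pow d)
      rw [one_pow, mul_one] at h3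
      exact h3
    have hev := hG.eventually (lt_mem_nhds (show a - ε / 3 < a by linarith))
    obtain ⟨i0, hi0⟩ := eventually_atTop.mp hev
    set j0 : ℕ := i0 + 2 + ⌈72 * K / ε⌉₊ with hj0
    have hterm : ∀ j, j0 ≤ j → (2 * (AS l0 C j : ℝ) + 1) ^ d *
        Real.exp (-(thS a cT d l0 m Nf (j - 1))) ≤
        Real.exp (-(a - 2 * ε / 3) * R j ^ d) := by
      intro j hj
      obtain ⟨i, rfl⟩ : ∃ i, j = i + 1 := ⟨j - 1, by omega⟩
      have hi1 : 1 ≤ i := by omega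
      have h1 := hi0 i (by omega)
      rw [Nat.add_sub_cancel]
      have hlpos : 0 < (lS l0 m (i + 1) : ℝ) := by linarith [hlone (i + 1)]
      have hlpos' : 0 < (lS l0 m i : ℝ) := by linarith [hlone i]
      have hNpos : 0 < (Nf (i + 1) : ℝ) + (d + 1) := by positivity
      have hθ : (a - ε / 3) * R (i + 1) ^ d ≤ thS a cT d l0 m Nf i := by
        rw [hth i hi1]
        have hRe : R (i + 1) ^ d = (lS l0 m (i + 1) : ℝ) ^ d * ((Nf (i + 1) : ℝ) + (d + 1)) ^ d := by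
          show ((lS l0 m (i + 1) : ℝ) * ((Nf (i + 1) : ℝ) + d + 1)) ^ d = _
          rw [mul_pow, add_assoc]
        have h2 : (a - ε / 3) * R (i + 1) ^ d ≤
            ((a * ((Nf (i + 1) : ℝ) - (d + 1)) ^ d - 4) /
            ((Nf (i + 1) : ℝ) + (d + 1)) ^ d *
              ((lS l0 m i : ℝ) / (lS l0 m (i + 1) : ℝ)) ^ d) * R (i + 1) ^ d :=
          mul_le_mul_of_nonneg_right h1.le (by positivity)
        have h3 : ((a * ((Nf (i + 1) : ℝ) - (d + 1)) ^ d - 4) /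
            ((Nf (i + 1) : ℝ) + (d + 1)) ^ d *
              ((lS l0 m i : ℝ) / (lS l0 m (i + 1) : ℝ)) ^ d) * R (i + 1) ^ d =
            (a * ((Nf (i + 1) : ℝ) - (d + 1)) ^ d - 4) * (lS l0 m i : ℝ) ^ d := by
          rw [hRe, div_pow]
          have e1 : ((Nf (i + 1) : ℝ) + (d + 1)) ^ d ≠ 0 := by positivity
          have e2 : (lS l0 m (i + 1) : ℝ) ^ d ≠ 0 := by positivity
          field_simp
        have h4 : (Nf (i + 1) : ℝ) - (d + 1) ≤ (Nf i : ℝ) - d := by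
          have : (Nf (i + 1) : ℝ) ≤ (Nf i : ℝ) + 1 := by exact_mod_cast hstep i
          linarith
        have h5 : 0 ≤ (Nf (i + 1) : ℝ) - (d + 1) := by
          have : d + 1 ≤ Nf (i + 1) := by have := hNj (i + 1); omega
          have h6 : (d : ℝ) + 1 ≤ (Nf (i + 1) : ℝ) := by exact_mod_cast this
          linarith
        have h6 := pow_le_pow_left₀ h5 h4 d
        have h7 := mul_le_mul_of_nonneg_left h6 ha.le
        have h8 : (a * ((Nf (i + 1) : ℝ) - (d + 1)) ^ d - 4) * (lS l0 m i : ℝ) ^ d ≤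
            (a * ((Nf i : ℝ) - d) ^ d - 4) * (lS l0 m i : ℝ) ^ d :=
          mul_le_mul_of_nonneg_right (by linarith) (by positivity)
        linarith
      have hA2 : (2 * (AS l0 C (i + 1) : ℝ) + 1) ^ d ≤ Real.exp (ε / 3 * R (i + 1) ^ d) := by
        refine (hAb (i + 1) (by omega)).trans (Real.exp_le_exp.mpr ?_)
        have h1 := hl1 (i + 1) (by omega)
        have h2 := hRl (i + 1)
        have h3 := hRpow (i + 1)
        have h4 : 72 * K / ε ≤ ((i + 1 : ℕ) : ℝ) := by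
          refine (Nat.le_ceil _).trans ?_
          exact_mod_cast (by omega : ⌈72 * K / ε⌉₊ ≤ i + 1)
        rw [div_le_iff₀ hε] at h4
        have h5 : (0 : ℝ) ≤ ((i + 1 : ℕ) : ℝ) := Nat.cast_nonneg _
        have h6 : 72 * K * ((i + 1 : ℕ) : ℝ) ≤ ((i + 1 : ℕ) : ℝ) * ε * ((i + 1 : ℕ) : ℝ) :=
          mul_le_mul_of_nonneg_right h4 h5
        have h7 : ((i + 1 : ℕ) : ℝ) ^ 2 / 24 ≤ R (i + 1) ^ d := by linarith
        have h8 := mul_le_mul_of_nonneg_left h7 (show 0 ≤ ε / 3 by linarith)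
        nlinarith
      calc (2 * (AS l0 C (i + 1) : ℝ) + 1) ^ d * Real.exp (-(thS a cT d l0 m Nf i))
          ≤ Real.exp (ε / 3 * R (i + 1) ^ d) * Real.exp (-((a - ε / 3) * R (i + 1) ^ d)) := by
            apply mul_le_mul hA2 _ (Real.exp_pos _).le (Real.exp_pos _).le
            exact Real.exp_le_exp.mpr (by linarith)
        _ = Real.exp (-(a - 2 * ε / 3) * R (i + 1) ^ d) := by
            rw [← Real.exp_add]; congr 1; ring
    -- geometric series
    set ρ : ℝ := Real.exp (-(ε / 144)) with hρ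
    have hρ0 : 0 ≤ ρ := (Real.exp_pos _).le
    have hρ1 : ρ < 1 := by
      rw [hρ, Real.exp_lt_one_iff]
      linarith
    have hSr : ∀ᶠ r : ℝ in atTop, (1 - ρ)⁻¹ * Real.exp (-(ε / 6 * r)) ≤ 1 := by
      have h1 : Tendsto (fun r : ℝ => (1 - ρ)⁻¹ * Real.exp (-(ε / 6 * r))) atTop (𝓝 0) := by
        have h2 : Tendsto (fun r : ℝ => Real.exp (-(ε / 6 * r))) atTop (𝓝 0) :=
          Real.tendsto_exp_neg_atTop_nhds_zero.comp (tendsto_id.const_mul_atTop (by linarith))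
        have := h2.const_mul (1 - ρ)⁻¹
        rwa [mul_zero] at this
      exact (h1.eventually (gt_mem_nhds (show (0 : ℝ) < 1 by norm_num))).mono fun r hr => hr.le
    filter_upwards [hSr, eventually_ge_atTop 1,
      eventually_ge_atTop (∑ j ∈ Finset.range j0, R j)] with r hr1 hr2 hr3 J
    have hjbig : ∀ j, r < R j → j0 ≤ j := by
      intro j hj
      by_contra hlt
      push Not at hlt
      have : R j ≤ ∑ j ∈ Finset.range j0, R j :=
        Finset.single_le_sum (f := R) (fun i _ => by linarith [hR1 i]) (Finset.mem_range.mpr hlt)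
      linarith
    have hfin : Real.exp (-(a - ε) * r ^ d) ≤ Real.exp (-(a - ε0) * r ^ d) := by
      apply Real.exp_le_exp.mpr
      apply mul_le_mul_of_nonneg_right _ (by positivity)
      linarith
    refine le_trans ?_ hfin
    have hb : 0 ≤ a - ε := by linarith
    have hterm2 : ∀ j ∈ (Finset.Icc 1 J).filter
        (fun j => r < (lS l0 m j : ℝ) * ((Nf j : ℝ) + d + 1)),
        (2 * (AS l0 C j : ℝ) + 1) ^ d * Real.exp (-(thS a cT d l0 m Nf (j - 1))) ≤
        Real.exp (-(a - ε) * r ^ d) * Real.exp (-(ε / 6 * r)) * ρ ^ j := by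
      intro j hj
      rw [Finset.mem_filter, Finset.mem_Icc] at hj
      have hrj : r < R j := hj.2
      refine (hterm j (hjbig j hrj)).trans ?_
      have h1 : r ^ d ≤ R j ^ d := pow_le_pow_left₀ (by linarith) hrj.le d
      have h2 := hRpow j
      have h3 := hRl j
      have h4 := hl1 j hj.1.1
      have hj1 : (1 : ℝ) ≤ j := by exact_mod_cast hj.1.1
      have h5 : (j : ℝ) ≤ (j : ℝ) ^ 2 := by nlinarith
      rw [hρ, ← Real.exp_nat_mul, ← Real.exp_add, ← Real.exp_add]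
      apply Real.exp_le_exp.mpr
      have h6 := mul_le_mul_of_nonneg_left h1 hb
      have h7 : (r + (j : ℝ) / 24) / 2 ≤ R j ^ d := by linarith
      have h8 := mul_le_mul_of_nonneg_left h7 (show 0 ≤ ε / 3 by linarith)
      nlinarith
    refine (Finset.sum_le_sum hterm2).trans ?_
    rw [← Finset.mul_sum]
    have hgeo : ∑ j ∈ (Finset.Icc 1 J).filter
        (fun j => r < (lS l0 m j : ℝ) * ((Nf j : ℝ) + d + 1)), ρ ^ j ≤ (1 - ρ)⁻¹ := by
      rw [← tsum_geometric_of_lt_one hρ0 hρ1]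
      exact (summable_geometric_of_lt_one hρ0 hρ1).sum_le_tsum _ fun j _ => pow_nonneg hρ0 j
    have hE : 0 < Real.exp (-(a - ε) * r ^ d) := Real.exp_pos _
    calc Real.exp (-(a - ε) * r ^ d) * Real.exp (-(ε / 6 * r)) *
          ∑ j ∈ (Finset.Icc 1 J).filter
            (fun j => r < (lS l0 m j : ℝ) * ((Nf j : ℝ) + d + 1)), ρ ^ j
        ≤ Real.exp (-(a - ε) * r ^ d) * Real.exp (-(ε / 6 * r)) * (1 - ρ)⁻¹ :=
          mul_le_mul_of_nonneg_left hgeo (by positivity)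
      _ = Real.exp (-(a - ε) * r ^ d) * ((1 - ρ)⁻¹ * Real.exp (-(ε / 6 * r))) := by ring
      _ ≤ Real.exp (-(a - ε) * r ^ d) * 1 := mul_le_mul_of_nonneg_left hr1 hE.le
      _ = _ := mul_one _

end

end Pool.Agent.H4.MC
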