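import Pool.Agent.H96.MC.Targets

/-!
# MP_5da387_pr: elementary facts on `PL` (used in LIM and POSA; helper4)
-/

namespace Pool.Agent.H4.MC

open Classical MeasureTheory ProbabilityTheory Pool.Agent.H96.MC

open scoped NNReal

noncomputable section

variable {κ : Type} [Fintype κ]

/-- the product of Poisson laws -/
def pm (lam : κ → ℝ) (L : ℝ) : Measure (κ → ℕ) :=
  Measure.pi fun k => poissonMeasure (lam k * L).toNNReal

instance (lam : κ → ℝ) (L : ℝ) : IsProbabilityMeasure (pm lam L) := by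
  unfold pm
  infer_instance

/-- point masses -/
def pp (lam : κ → ℝ) (L : ℝ) (w : κ → ℕ) : ℝ :=
  ∏ k, (Real.exp (-(lam k * L)) * (lam k * L) ^ (w k) / (Nat.factorial (w k) : ℝ))

lemma PL_def (lam : κ → ℝ) (L : ℝ) (Z : Set (κ → ℕ)) :
    PL lam L Z = ∑' w, Z.indicator (pp lam L) w := rfl

lemma pp_nonneg {lam : κ → ℝ} (hlam : ∀ k, 0 < lam k) {L : ℝ} (hL : 0 ≤ L) (w : κ → ℕ) :
    0 ≤ pp lam L w := by
  unfold pp
  refine Finset.prod_nonneg fun k _ => ?_
  have := mul_nonneg (hlam k).le hL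
  positivity

lemma PL_nonneg {lam : κ → ℝ} (hlam : ∀ k, 0 < lam k) {L : ℝ} (hL : 0 ≤ L) (Z : Set (κ → ℕ)) :
    0 ≤ PL lam L Z :=
  tsum_nonneg fun w => Set.indicator_nonneg (fun w _ => pp_nonneg hlam hL w) w

lemma PL_eq (h1 : T_PLM) {lam : κ → ℝ} (hlam : ∀ k, 0 < lam k) {L : ℝ} (hL : 0 ≤ L)
    (Z : Set (κ → ℕ)) : PL lam L Z = (pm lam L).real Z := by
  have h := h1 κ inferInstance lam L Z hlam hL
  rw [Measure.real, pm, h, ENNReal.toReal_ofReal (PL_nonneg hlam hL Z)]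

lemma PL_mono (h1 : T_PLM) {lam : κ → ℝ} (hlam : ∀ k, 0 < lam k) {L : ℝ} (hL : 0 ≤ L)
    {Z Z' : Set (κ → ℕ)} (h : Z ⊆ Z') : PL lam L Z ≤ PL lam L Z' := by
  rw [PL_eq h1 hlam hL, PL_eq h1 hlam hL]
  exact measureReal_mono h

lemma PL_le_one (h1 : T_PLM) {lam : κ → ℝ} (hlam : ∀ k, 0 < lam k) {L : ℝ} (hL : 0 ≤ L)
    (Z : Set (κ → ℕ)) : PL lam L Z ≤ 1 := by
  rw [PL_eq h1 hlam hL]
  exact measureReal_le_one

lemma PL_union_le (h1 : T_PLM) {lam : κ → ℝ} (hlam : ∀ k, 0 < lam k) {L : ℝ} (hL : 0 ≤ L)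
    (Z Z' : Set (κ → ℕ)) : PL lam L (Z ∪ Z') ≤ PL lam L Z + PL lam L Z' := by
  rw [PL_eq h1 hlam hL, PL_eq h1 hlam hL, PL_eq h1 hlam hL]
  exact measureReal_union_le Z Z'

lemma pp_pos {lam : κ → ℝ} (hlam : ∀ k, 0 < lam k) {L : ℝ} (hL : 0 < L) (w : κ → ℕ) :
    0 < pp lam L w := by
  unfold pp
  refine Finset.prod_pos fun k _ => ?_
  have := mul_pos (hlam k) hL
  positivity

lemma PL_singleton (lam : κ → ℝ) (L : ℝ) (w : κ → ℕ) : PL lam L {w} = pp lam L w := by
  rw [PL_def, tsum_eq_single w]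
  · simp
  · intro w' hw'
    simp [hw']

lemma PL_pos (h1 : T_PLM) {lam : κ → ℝ} (hlam : ∀ k, 0 < lam k) {L : ℝ} (hL : 0 < L)
    {Z : Set (κ → ℕ)} (hZ : Z.Nonempty) : 0 < PL lam L Z := by
  obtain ⟨w, hw⟩ := hZ
  refine lt_of_lt_of_le (pp_pos hlam hL w) ?_
  rw [← PL_singleton]
  exact PL_mono h1 hlam hL.le (Set.singleton_subset_iff.mpr hw)

lemma summable_pp (h1 : T_PLM) {lam : κ → ℝ} (hlam : ∀ k, 0 < lam k) {L : ℝ} (hL : 0 ≤ L) :
    Summable (pp lam L) := by
  by_contra hc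
  have h2 : PL lam L Set.univ = 0 := by
    rw [PL_def, Set.indicator_univ]
    exact tsum_eq_zero_of_not_summable hc
  rw [PL_eq h1 hlam hL] at h2
  simp at h2

lemma pm_add {lam : κ → ℝ} (hlam : ∀ k, 0 < lam k) {L L' : ℝ} (hL : 0 ≤ L) (hL' : 0 ≤ L') :
    ((pm lam L).prod (pm lam L')).map (fun x => x.1 + x.2) = pm lam (L + L') := by
  unfold pm
  have h1 := (measurePreserving_arrowProdEquivProdArrow ℕ ℕ κ
    (fun k => poissonMeasure (lam k * L).toNNReal)
    (fun k => poissonMeasure (lam k * L').toNNReal)).map_eq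
  rw [← h1, Measure.map_map Measurable.of_discrete (MeasurableEquiv.measurable _)]
  have h2 : (fun x : (κ → ℕ) × (κ → ℕ) => x.1 + x.2) ∘
      (MeasurableEquiv.arrowProdEquivProdArrow ℕ ℕ κ) =
      fun (w : κ → ℕ × ℕ) (k : κ) => (w k).1 + (w k).2 := rfl
  rw [h2]
  have h3 := Measure.pi_map_pi
    (μ := fun k : κ => (poissonMeasure (lam k * L).toNNReal).prod
      (poissonMeasure (lam k * L').toNNReal))
    (f := fun _ (x : ℕ × ℕ) => x.1 + x.2) (fun k => Measurable.of_discrete.aemeasurable)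
  rw [h3]
  congr 1
  funext k
  have h4 := poissonMeasure_conv_poissonMeasure (lam k * L).toNNReal (lam k * L').toNNReal
  rw [← Real.toNNReal_add (mul_nonneg (hlam k).le hL) (mul_nonneg (hlam k).le hL'),
    ← mul_add] at h4
  exact h4

lemma PL_conv (h1 : T_PLM) {lam : κ → ℝ} (hlam : ∀ k, 0 < lam k) {L L' : ℝ} (hL : 0 ≤ L)
    (hL' : 0 ≤ L') {A B Z : Set (κ → ℕ)} (h : ∀ a ∈ A, ∀ b ∈ B, a + b ∈ Z) :
    PL lam L A * PL lam L' B ≤ PL lam (L + L') Z := by
  rw [PL_eq h1 hlam hL, PL_eq h1 hlam hL', PL_eq h1 hlam (add_nonneg hL hL'),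
    ← pm_add hlam hL hL', ← measureReal_prod_prod]
  rw [map_measureReal_apply Measurable.of_discrete (MeasurableSet.of_discrete)]
  refine measureReal_mono ?_ (measure_ne_top _ _)
  rintro ⟨a, b⟩ ⟨ha, hb⟩
  exact h a ha b hb

lemma pp_add_le {lam : κ → ℝ} (hlam : ∀ k, 0 < lam k) {L : ℝ} (hL : 0 ≤ L) (a z : κ → ℕ) :
    pp lam L (a + z) ≤ (∏ k, (lam k * L) ^ (a k)) * pp lam L z := by
  unfold pp
  rw [← Finset.prod_mul_distrib]
  refine Finset.prod_le_prod (fun k _ => ?_) (fun k _ => ?_)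
  · have := mul_nonneg (hlam k).le hL
    positivity
  · have h0 := mul_nonneg (hlam k).le hL
    have h1 : ((z k).factorial : ℝ) ≤ (((a + z) k).factorial : ℝ) := by
      have : z k ≤ (a + z) k := by simp
      exact_mod_cast Nat.factorial_le this
    have h2 : (0 : ℝ) < ((z k).factorial : ℝ) := by positivity
    rw [Pi.add_apply] at h1 ⊢
    rw [pow_add]
    calc Real.exp (-(lam k * L)) * ((lam k * L) ^ a k * (lam k * L) ^ z k) /
          ((a k + z k).factorial : ℝ)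
        ≤ Real.exp (-(lam k * L)) * ((lam k * L) ^ a k * (lam k * L) ^ z k) /
          ((z k).factorial : ℝ) := by
          apply div_le_div_of_nonneg_left _ h2 h1
          positivity
      _ = (lam k * L) ^ a k * (Real.exp (-(lam k * L)) * (lam k * L) ^ z k /
          ((z k).factorial : ℝ)) := by ring

lemma PL_shift_le (h1 : T_PLM) {lam : κ → ℝ} (hlam : ∀ k, 0 < lam k) {L : ℝ} (hL : 0 ≤ L)
    (a : κ → ℕ) (M : Set (κ → ℕ)) :
    PL lam L ((fun z => a + z) '' M) ≤ (∏ k, (lam k * L) ^ (a k)) * PL lam L M := by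
  have hs := summable_pp h1 hlam hL
  have hinj : Function.Injective (fun z : κ → ℕ => a + z) := fun z z' h => by
    simpa using h
  rw [PL_def, PL_def]
  have h2 : ∑' w, ((fun z => a + z) '' M).indicator (pp lam L) w =
      ∑' z, M.indicator (fun z => pp lam L (a + z)) z := by
    rw [← hinj.tsum_eq (f := ((fun z => a + z) '' M).indicator (pp lam L))]
    · refine tsum_congr fun z => ?_
      by_cases hz : z ∈ M
      · rw [Set.indicator_of_mem hz, Set.indicator_of_mem (Set.mem_image_of_mem _ hz)]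
      · rw [Set.indicator_of_notMem hz, Set.indicator_of_notMem]
        rintro ⟨z', hz', he⟩
        exact hz (hinj he ▸ hz')
    · intro w hw
      have : w ∈ (fun z => a + z) '' M := by
        by_contra hn
        exact hw (Set.indicator_of_notMem hn _)
      obtain ⟨z, _, rfl⟩ := this
      exact ⟨z, rfl⟩
  rw [h2, ← tsum_mul_left]
  have hsum : Summable fun z => (∏ k, (lam k * L) ^ (a k)) * M.indicator (pp lam L) z :=
    (hs.indicator M).mul_left _
  have hle : ∀ z, M.indicator (fun z => pp lam L (a + z)) z ≤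
      (∏ k, (lam k * L) ^ (a k)) * M.indicator (pp lam L) z := by
    intro z
    by_cases hz : z ∈ M
    · rw [Set.indicator_of_mem hz, Set.indicator_of_mem hz]
      exact pp_add_le hlam hL a z
    · rw [Set.indicator_of_notMem hz, Set.indicator_of_notMem hz, mul_zero]
  refine Summable.tsum_le_tsum hle ?_ hsum
  exact Summable.of_nonneg_of_le
    (fun z => Set.indicator_nonneg (fun z _ => pp_nonneg hlam hL _) z) hle hsum

end

end Pool.Agent.H4.MC
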