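import Pool.Agent.H89.MC.Targets

/-!
mc_modules POI (MP_5da387_pr): the points of the scheme are independent Poisson processes.
-/

namespace Pool.Agent.H4.MC.POI

open Classical MeasureTheory ProbabilityTheory
open Pool.Agent.H96.MC

noncomputable section

variable {d q : ℕ}

/-- the vector of the counts, as a function of the configuration, the positions and the shift -/
def NN {k : ℕ} (c : Fin k → Fin q) (B : Fin k → Set (Sp d)) (W : Finset (Cell d))
    (w : (Cfg d q × (Pt d q → Fin d → ℝ)) × (Fin d → ℝ)) : Fin k → ℕ :=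
  fun j => ctW w.2 (c j) (B j) W w.1

lemma measurable_NN {k : ℕ} (c : Fin k → Fin q) (B : Fin k → Set (Sp d)) (W : Finset (Cell d))
    (hB : ∀ j, MeasurableSet (B j)) : Measurable (NN c B W) := by
  refine measurable_pi_lambda _ fun j => ?_
  unfold NN ctW
  refine Finset.measurable_sum _ fun v _ => ?_
  have hm : Measurable (fun p : ℕ × ((Cfg d q × (Pt d q → Fin d → ℝ)) × (Fin d → ℝ)) =>
      ((Finset.range p.1).filter fun k =>
        (WithLp.toLp 2 fun l => ((v l : ℝ) + p.2.1.2 ((v, c j), k) l + p.2.2 l) : Sp d) ∈ B j).card) := by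
    refine measurable_from_prod_countable_right fun n => ?_
    simp only [Finset.card_filter]
    refine Finset.measurable_sum _ fun k _ => ?_
    refine Measurable.ite ?_ measurable_const measurable_const
    have h1 : Measurable (WithLp.toLp 2 : (Fin d → ℝ) → Sp d) := by fun_prop
    have h2 : Measurable fun w : (Cfg d q × (Pt d q → Fin d → ℝ)) × (Fin d → ℝ) =>
        (WithLp.toLp 2 fun l => ((v l : ℝ) + w.1.2 ((v, c j), k) l + w.2 l) : Sp d) := by
      refine h1.comp ?_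
      fun_prop
    exact h2 (hB j)
  have h3 : Measurable (fun w : (Cfg d q × (Pt d q → Fin d → ℝ)) × (Fin d → ℝ) =>
      (w.1.1 (v, c j), w)) := by fun_prop
  exact hm.comp h3

lemma covers {B : Set (Sp d)} {R : ℝ} (hB : ∀ y ∈ B, ‖y‖ ≤ R) (ζ : Fin d → ℝ)
    (hζ : ∀ l, 0 ≤ ζ l ∧ ζ l < 1) :
    ∀ y ∈ B, ∃ v ∈ cube (0 : Cell d) (⌈R⌉₊ + 2), ∀ l, (v l : ℝ) + ζ l ≤ y l ∧
      y l < (v l : ℝ) + ζ l + 1 := by
  intro y hy
  refine ⟨fun l => ⌊y l - ζ l⌋, ?_, ?_⟩
  · rw [mem_cube, sn_le_iff]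
    intro l
    have h1 : |y l| ≤ R := by
      have := PiLp.norm_apply_le y l
      rw [Real.norm_eq_abs] at this
      exact this.trans (hB y hy)
    have h2 := abs_le.1 h1
    have h3 := Int.floor_le (y l - ζ l)
    have h4 := Int.lt_floor_add_one (y l - ζ l)
    have h5 := hζ l
    have h6 : R ≤ (⌈R⌉₊ : ℝ) := Nat.le_ceil R
    have h7 : (⌊y l - ζ l⌋ : ℝ) ≤ (⌈R⌉₊ : ℝ) := by linarith
    have h8 : -((⌈R⌉₊ : ℝ) + 2) ≤ (⌊y l - ζ l⌋ : ℝ) := by linarith
    have h9 : ⌊y l - ζ l⌋ ≤ (⌈R⌉₊ : ℤ) := by exact_mod_cast h7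
    have h10 : -((⌈R⌉₊ : ℤ) + 2) ≤ ⌊y l - ζ l⌋ := by exact_mod_cast h8
    show ((⌊y l - ζ l⌋ : ℤ) - 0).natAbs ≤ _
    omega
  · intro l
    have h3 := Int.floor_le (y l - ζ l)
    have h4 := Int.lt_floor_add_one (y l - ζ l)
    constructor <;> linarith

lemma encard_eq (h3 : T_MTC) (hd : 1 ≤ d) (V : Finset (Fin q → ℕ)) (ω : Big d q)
    (hω : GoodB V ω) (i : Fin q) (B : Set (Sp d)) (R : ℝ) (hB : ∀ y ∈ B, ‖y‖ ≤ R) :
    (ptsB V i ω ∩ B).encard =
      ((ctW ω.2.2 i B (cube (0 : Cell d) (⌈R⌉₊ + 2)) (ω.1.1, ω.2.1) : ℕ) : ℕ∞) := by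
  have hinj := (h3 d q V ω hd hω).1
  obtain ⟨-, hU, hζ, -⟩ := id hω
  set W := cube (0 : Cell d) (⌈R⌉₊ + 2) with hW
  set Q : Finset (Pt d q) := W.biUnion fun v =>
    ((Finset.range (ω.1.1 (v, i))).filter fun k =>
      (WithLp.toLp 2 fun l => ((v l : ℝ) + ω.2.1 ((v, i), k) l + ω.2.2 l) : Sp d) ∈ B).image
      fun k => ((v, i), k) with hQ
  have hcard : Q.card = ctW ω.2.2 i B W (ω.1.1, ω.2.1) := by
    rw [hQ, Finset.card_biUnion]
    · unfold ctW
      refine Finset.sum_congr rfl fun v _ => ?_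
      rw [Finset.card_image_of_injective]
      intro a b h
      exact (Prod.mk.inj h).2
    · intro v _ v' _ hne
      show Disjoint _ _
      rw [Finset.disjoint_left]
      intro x hx hx'
      obtain ⟨a, -, rfl⟩ := Finset.mem_image.1 hx
      obtain ⟨b, -, hb⟩ := Finset.mem_image.1 hx'
      apply hne
      have := (Prod.mk.inj (Prod.mk.inj hb).1).1
      exact this.symm
  have hset : ptsB V i ω ∩ B = pos ω '' (Q : Set (Pt d q)) := by
    ext z
    constructor
    · rintro ⟨⟨-, x, hx, hi, rfl⟩, hz⟩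
      refine ⟨x, ?_, rfl⟩
      have hcell : x.1.1 ∈ W := by
        rw [hW, mem_cube, sn_le_iff]
        intro l
        have e : (pos ω x) l = (x.1.1 l : ℝ) + ω.2.1 x l + ω.2.2 l := rfl
        have h1 : |(pos ω x) l| ≤ R := by
          have := PiLp.norm_apply_le (pos ω x) l
          rw [Real.norm_eq_abs] at this
          exact this.trans (hB _ hz)
        rw [e] at h1
        have h2 := abs_le.1 h1
        have h4 := hU x l
        have h5 := hζ l
        have h6 : R ≤ (⌈R⌉₊ : ℝ) := Nat.le_ceil R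
        have h7 : (x.1.1 l : ℝ) ≤ (⌈R⌉₊ : ℝ) := by linarith
        have h8 : -((⌈R⌉₊ : ℝ) + 2) ≤ (x.1.1 l : ℝ) := by linarith
        have h9 : x.1.1 l ≤ (⌈R⌉₊ : ℤ) := by exact_mod_cast h7
        have h10 : -((⌈R⌉₊ : ℤ) + 2) ≤ x.1.1 l := by exact_mod_cast h8
        show (x.1.1 l - 0).natAbs ≤ _
        omega
      rw [hQ]
      simp only [Finset.coe_biUnion, Set.mem_iUnion, Finset.coe_image, Set.mem_image,
        Finset.mem_coe, Finset.mem_filter, Finset.mem_range]
      obtain ⟨⟨v, i'⟩, k⟩ := x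
      simp only at hi
      subst hi
      exact ⟨v, hcell, k, ⟨hx, hz⟩, rfl⟩
    · rintro ⟨x, hx, rfl⟩
      rw [hQ] at hx
      simp only [Finset.coe_biUnion, Set.mem_iUnion, Finset.coe_image, Set.mem_image,
        Finset.mem_coe, Finset.mem_filter, Finset.mem_range] at hx
      obtain ⟨v, -, k, ⟨hk, hkB⟩, rfl⟩ := hx
      exact ⟨⟨hω, ((v, i), k), hk, rfl, rfl⟩, hkB⟩
  rw [hset, hinj.encard_image, Set.encard_coe_eq_coe_finsetCard, hcard]

/-- **POI** -/
theorem poi (h1 : T_UNI) (h2 : T_GOO) (h3 : T_MTC) (h4 : T_MEA) (h5 : T_PPP) : T_POI := by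
  intro d q D μ hd hμ hfst hperf
  refine ⟨(h4 d q D.V hd).1, ?_⟩
  intro k c B hB hbd hdis
  obtain ⟨hprob, -⟩ := h1 d
  obtain ⟨hbig, hae⟩ := (h2 d q D.V hd).2 μ hμ hperf
  -- a common radius
  have hR : ∃ R : ℝ, ∀ j, ∀ y ∈ B j, ‖y‖ ≤ R := by
    have : ∀ j, ∃ r : ℝ, ∀ y ∈ B j, ‖y‖ ≤ r := fun j => (hbd j).exists_norm_le
    choose r hr using this
    refine ⟨∑ j, |r j|, fun j y hy => ?_⟩
    calc ‖y‖ ≤ r j := hr j y hy
      _ ≤ |r j| := le_abs_self _
      _ ≤ ∑ j, |r j| := Finset.single_le_sum (f := fun j => |r j|) (fun _ _ => abs_nonneg _)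
          (Finset.mem_univ j)
  obtain ⟨R, hR⟩ := hR
  set W := cube (0 : Cell d) (⌈R⌉₊ + 2) with hW
  set pj : Fin k → Measure ℕ := fun j =>
    poissonMeasure ((D.lam (c j)).toNNReal * (volume (B j)).toNNReal) with hpj
  set ρ : Measure (Pt d q → Fin d → ℝ) := Measure.infinitePi fun _ : Pt d q => unif d with hρ
  have hρp : IsProbabilityMeasure ρ := by rw [hρ]; infer_instance
  have hpois : IsProbabilityMeasure (pois D d) := by unfold pois; infer_instance
  -- transfer to the product of the configuration, the positions and the shift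
  have hT : MeasurePreserving (fun ω : Big d q => ((ω.1.1, ω.2.1), ω.2.2)) (bigLaw μ)
      (((pois D d).prod ρ).prod (unif d)) := by
    have e1 : MeasurePreserving (Prod.map Prod.fst id : Big d q → Cfg d q × _) (bigLaw μ)
        ((pois D d).prod (ρ.prod (unif d))) :=
      MeasurePreserving.prod ⟨measurable_fst, hfst⟩ (MeasurePreserving.id _)
    have e2 : MeasurePreserving (MeasurableEquiv.prodAssoc :
        (Cfg d q × (Pt d q → Fin d → ℝ)) × (Fin d → ℝ) ≃ᵐ _) (((pois D d).prod ρ).prod (unif d))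
        ((pois D d).prod (ρ.prod (unif d))) := measurePreserving_prodAssoc _ _ _
    exact e2.symm.comp e1
  have hNm : Measurable (NN c B W) := measurable_NN c B W hB
  -- the law of the vector of the counts
  have hlaw : (((pois D d).prod ρ).prod (unif d)).map (NN c B W) = Measure.pi pj := by
    ext A hA
    rw [Measure.map_apply hNm hA, Measure.prod_apply_symm (hNm hA)]
    have hcube : ∀ᵐ ζ ∂(unif d), ∀ l, 0 ≤ ζ l ∧ ζ l < 1 := by
      have hms : MeasurableSet (Set.pi Set.univ fun _ : Fin d => Set.Ico (0 : ℝ) 1) :=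
        MeasurableSet.univ_pi fun _ => measurableSet_Ico
      have := ae_restrict_mem (μ := (volume : Measure (Fin d → ℝ))) hms
      filter_upwards [this] with ζ hζ l
      exact hζ l (Set.mem_univ l)
    have hcongr : ∀ᵐ ζ ∂(unif d), ((pois D d).prod ρ) ((fun x => (x, ζ)) ⁻¹' (NN c B W ⁻¹' A)) =
        Measure.pi pj A := by
      filter_upwards [hcube] with ζ hζ
      have h6 := h5 d q D ζ W k c B hB hdis (fun j => covers (hR j) ζ hζ)
      rw [hpj, ← h6]
      have hm : Measurable (fun (w : Cfg d q × (Pt d q → Fin d → ℝ)) j => ctW ζ (c j) (B j) W w) :=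
        hNm.comp (measurable_id.prodMk measurable_const)
      rw [Measure.map_apply hm hA]
      rfl
    rw [lintegral_congr_ae hcongr, lintegral_const, measure_univ, mul_one]
  have hNbig : (bigLaw μ).map (fun ω : Big d q => NN c B W ((ω.1.1, ω.2.1), ω.2.2)) =
      Measure.pi pj := by
    rw [← hlaw, ← hT.map_eq, Measure.map_map hNm hT.measurable]
    rfl
  -- the counts
  have hEm : ∀ j, Measurable fun ω : Big d q => (ptsB D.V (c j) ω ∩ B j).encard := fun j =>
    (h4 d q D.V hd).1 (c j) (B j) (hB j)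
  have heq : (fun (ω : Big d q) (j : Fin k) => (ptsB D.V (c j) ω ∩ B j).encard) =ᵐ[bigLaw μ]
      fun ω j => ((NN c B W ((ω.1.1, ω.2.1), ω.2.2) j : ℕ) : ℕ∞) := by
    filter_upwards [hae] with ω hω
    funext j
    exact encard_eq h3 hd D.V ω hω (c j) (B j) R (hR j)
  have hcast : Measurable (fun m : ℕ => (m : ℕ∞)) := measurable_from_top
  have hvec : (bigLaw μ).map (fun (ω : Big d q) (j : Fin k) => (ptsB D.V (c j) ω ∩ B j).encard) =
      Measure.pi fun j => (pj j).map (fun m : ℕ => (m : ℕ∞)) := by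
    rw [Measure.map_congr heq]
    have e1 : (fun (ω : Big d q) (j : Fin k) => ((NN c B W ((ω.1.1, ω.2.1), ω.2.2) j : ℕ) : ℕ∞)) =
        (fun (x : Fin k → ℕ) j => ((x j : ℕ) : ℕ∞)) ∘
          fun ω : Big d q => NN c B W ((ω.1.1, ω.2.1), ω.2.2) := rfl
    have hm1 : Measurable (fun (x : Fin k → ℕ) j => ((x j : ℕ) : ℕ∞)) :=
      measurable_pi_lambda _ fun j => hcast.comp (measurable_pi_apply j)
    have hN2 : Measurable (fun ω : Big d q => NN c B W ((ω.1.1, ω.2.1), ω.2.2)) :=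
      hNm.comp hT.measurable
    rw [e1, ← Measure.map_map hm1 hN2, hNbig]
    exact Measure.pi_map_pi (fun j => hcast.aemeasurable)
  have hmarg : ∀ j, (bigLaw μ).map (fun ω : Big d q => (ptsB D.V (c j) ω ∩ B j).encard) =
      (pj j).map (fun m : ℕ => (m : ℕ∞)) := by
    intro j
    have hp : ∀ j, IsProbabilityMeasure ((pj j).map (fun m : ℕ => (m : ℕ∞))) := fun j =>
      Measure.isProbabilityMeasure_map hcast.aemeasurable
    have e1 := (measurePreserving_eval (fun j => (pj j).map (fun m : ℕ => (m : ℕ∞))) j).map_eq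
    rw [← e1, ← hvec, Measure.map_map (measurable_pi_apply j)
      (measurable_pi_lambda _ fun j => hEm j)]
    rfl
  refine ⟨?_, hmarg⟩
  rw [iIndepFun_iff_map_fun_eq_pi_map (fun j => (hEm j).aemeasurable), hvec]
  congr 1
  funext j
  exact (hmarg j).symm

end

end Pool.Agent.H4.MC.POI
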