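import Pool.Agent.H4.MC.PLaux

/-!
# MP_5da387_pr, module POSA: the rates of bad windows are bounded below (helper4)
-/

namespace Pool.Agent.H4.MC

open Classical MeasureTheory ProbabilityTheory Pool.Agent.H96.MC Filter Topology

open scoped NNReal

noncomputable section

/-- the sum over one group of indices -/
lemma group_law (hPS : T_PSUM) {κ : Type} [Fintype κ] (lam : κ → ℝ≥0) (f : κ → Bool) :
    (Measure.pi fun k => poissonMeasure (lam k)).map
      (fun w : κ → ℕ => ∑ k, if f k = true then w k else 0) =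
      poissonMeasure (∑ k, if f k = true then lam k else 0) := by
  have h := hPS κ Bool inferInstance inferInstance lam f
  have h2 := congrArg (Measure.map (Function.eval true)) h
  rw [Measure.map_map (measurable_pi_apply _) Measurable.of_discrete,
    (measurePreserving_eval _ true).map_eq] at h2
  have e1 : ∀ (A : Type) [AddCommMonoid A] (F : κ → A),
      ∑ k, (if f k = true then F k else 0) =
        ∑ k, @ite A (f k = true) (Classical.propDecidable _) (F k) 0 := by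
    intro A _ F
    refine Finset.sum_congr rfl fun k _ => ?_
    by_cases hk : f k = true
    · rw [if_pos hk, if_pos hk]
    · rw [if_neg hk, if_neg hk]
  rw [e1 ℝ≥0 lam]
  have e2 : (fun w : κ → ℕ => ∑ k, if f k = true then w k else 0) =
      fun w : κ → ℕ => ∑ k, @ite ℕ (f k = true) (Classical.propDecidable _) (w k) 0 := by
    funext w
    exact e1 ℕ w
  rw [e2]
  exact h2

lemma sum_win {d q : ℕ} {A : Type} [AddCommMonoid A] (T : ℕ) (S : Finset (Cell d))
    (hS : S ⊆ cube 0 T) (i : Fin q) (F : CC d q → A) :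
    ∑ x : win d q T, (if (decide (x.1.1 ∈ S ∧ x.1.2 = i)) = true then F x.1 else 0) =
      ∑ z ∈ S, F (z, i) := by
  have h1 : ∑ x : win d q T, (if (decide (x.1.1 ∈ S ∧ x.1.2 = i)) = true then F x.1 else 0) =
      ∑ x ∈ win d q T, (if x.1 ∈ S ∧ x.2 = i then F x else 0) := by
    rw [← Finset.sum_coe_sort (win d q T)]
    refine Finset.sum_congr rfl fun x _ => ?_
    by_cases h : x.1.1 ∈ S ∧ x.1.2 = i
    · rw [if_pos h, if_pos (by simpa using h)]
    · rw [if_neg h, if_neg (by simpa using h)]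
  rw [h1]
  unfold win
  rw [Finset.sum_product]
  have h2 : ∀ z ∈ cube (0 : Cell d) T, ∑ j : Fin q, (if z ∈ S ∧ j = i then F (z, j) else 0) =
      if z ∈ S then F (z, i) else 0 := by
    intro z _
    by_cases hz : z ∈ S
    · rw [if_pos hz, Finset.sum_eq_single i]
      · rw [if_pos ⟨hz, rfl⟩]
      · intro j _ hj
        rw [if_neg (fun h => hj h.2)]
      · intro h
        exact absurd (Finset.mem_univ _) h
    · rw [if_neg hz]
      refine Finset.sum_eq_zero fun j _ => ?_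
      rw [if_neg (fun h => hz h.1)]
  rw [Finset.sum_congr rfl h2, ← Finset.sum_filter]
  congr 1
  ext z
  rw [Finset.mem_filter]
  exact ⟨fun h => h.2, fun h => ⟨hS h, h⟩⟩

/-- **POSA** -/
theorem posa (hAL : T_AL) (hSUP : T_SUP) (hCH : T_CHER) (hPLM : T_PLM) (hPS : T_PSUM)
    (hSE : T_SEMI) (hLIM : T_LIM) : T_POSA := by
  intro d q D hd
  obtain ⟨η, hη0, hη1, hη⟩ := hAL q D
  obtain ⟨c₁, hc₁⟩ := hη d hd
  obtain ⟨c₂, hc₂, hsup⟩ := hSUP d q D η c₁ hd hc₁
  obtain ⟨i₀, -⟩ := D.unit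
  have : Nonempty (Fin q) := ⟨i₀⟩
  obtain ⟨im, him⟩ := Finite.exists_min D.lam
  set c₃ : ℝ := η ^ 2 / 16 * D.lam im with hc₃
  have hc₃pos : 0 < c₃ := by
    have := D.pos im
    positivity
  have hden : (0 : ℝ) < (2 * ((d : ℝ) + 2)) ^ d := by positivity
  refine ⟨c₃ / (2 * ((d : ℝ) + 2)) ^ d, div_pos hc₃pos hden, ?_⟩
  intro N s T hadm
  obtain ⟨hN, hNs, hsT, hne⟩ := hadm
  set k : ℕ := N / (d + 2) with hk
  have hk1 : 1 ≤ k := (Nat.one_le_div_iff (by omega)).mpr hN
  have hkN : (d + 2) * k ≤ N := Nat.mul_div_le N (d + 2)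
  have hNk : N < (d + 2) * (k + 1) := Nat.lt_mul_div_succ N (by omega)
  let lam' : win d q (T + N) → ℝ := fun x => D.lam x.1.2
  have hlam' : ∀ x, 0 < lam' x := fun x => D.pos x.1.2
  -- the blocks
  let Bs : Finset (Cell d) := ((cube (0 : Cell d) (T + N)).image (bl k)).filter
    (fun b => cellsOf k b ⊆ cube 0 (T + N))
  have hBs : ∀ b, cellsOf k b ⊆ cube (0 : Cell d) (T + N) → b ∈ Bs := by
    intro b hb
    refine Finset.mem_filter.mpr ⟨?_, hb⟩
    have hcard : 0 < (cellsOf k b).card := by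
      rw [card_cellsOf]
      exact pow_pos (by omega) d
    obtain ⟨z, hz⟩ := Finset.card_pos.mp hcard
    exact Finset.mem_image.mpr ⟨z, hb hz, (mem_cellsOf hk1).mp hz⟩
  -- probability of one atypical block
  have hone : ∀ (L : ℕ) (b : Cell d) (i : Fin q), cellsOf k b ⊆ cube (0 : Cell d) (T + N) →
      (pm lam' L).real {w : win d q (T + N) → ℕ | η / 2 * ((L : ℝ) * (k : ℝ) ^ d) * D.lam i <
        |((bc k (ext w) (b, i) : ℕ) : ℝ) - (L : ℝ) * (k : ℝ) ^ d * D.lam i|} ≤
      2 * Real.exp (-(c₃ * ((L : ℝ) * (k : ℝ) ^ d))) := by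
    intro L b i hb
    set C : ℝ := (L : ℝ) * (k : ℝ) ^ d with hC
    have hC0 : 0 ≤ C := by positivity
    let f : win d q (T + N) → Bool := fun x => decide (x.1.1 ∈ cellsOf k b ∧ x.1.2 = i)
    have hlaw := group_law hPS (fun x : win d q (T + N) => (lam' x * (L : ℝ)).toNNReal) f
    have hmean : ∑ x : win d q (T + N), (if f x = true then (lam' x * (L : ℝ)).toNNReal else 0) =
        (C * D.lam i).toNNReal := by
      have h := sum_win (T + N) (cellsOf k b) hb i
        (fun x : CC d q => (D.lam x.2 * (L : ℝ)).toNNReal)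
      have h2 : ∑ x : win d q (T + N),
          (if f x = true then (lam' x * (L : ℝ)).toNNReal else 0) =
          ∑ z ∈ cellsOf k b, (D.lam i * (L : ℝ)).toNNReal := h
      rw [h2, Finset.sum_const, card_cellsOf, nsmul_eq_mul]
      have h3 : C * D.lam i = ((k ^ d : ℕ) : ℝ) * (D.lam i * (L : ℝ)) := by
        rw [hC]; push_cast; ring
      rw [h3, Real.toNNReal_mul (Nat.cast_nonneg _), Real.toNNReal_natCast]
    rw [hmean] at hlaw
    have hbc : ∀ w : win d q (T + N) → ℕ, bc k (ext w) (b, i) =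
        ∑ x : win d q (T + N), (if f x = true then w x else 0) := by
      intro w
      have h := sum_win (T + N) (cellsOf k b) hb i (ext w)
      unfold bc
      dsimp only
      rw [← h]
      refine Finset.sum_congr rfl fun x _ => ?_
      have h2 : ext w x.1 = w x := by
        unfold ext
        rw [dif_pos x.2]
      rw [h2]
    have hset : {w : win d q (T + N) → ℕ | η / 2 * C * D.lam i <
        |((bc k (ext w) (b, i) : ℕ) : ℝ) - C * D.lam i|} =
        (fun w : win d q (T + N) → ℕ => ∑ x, if f x = true then w x else 0) ⁻¹'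
          {n : ℕ | η / 2 * (C * D.lam i) < |(n : ℝ) - C * D.lam i|} := by
      ext w
      rw [Set.mem_preimage, Set.mem_ofPred_eq, Set.mem_ofPred_eq, hbc w, mul_assoc]
    have hmeas : pm lam' L {w : win d q (T + N) → ℕ | η / 2 * C * D.lam i <
        |((bc k (ext w) (b, i) : ℕ) : ℝ) - C * D.lam i|} ≤
        ENNReal.ofReal (2 * Real.exp (-((η / 2) ^ 2 / 4) * (C * D.lam i))) := by
      rw [hset]
      have h1 := hCH (C * D.lam i) (η / 2) (mul_nonneg hC0 (D.pos i).le) (by linarith)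
        (by linarith)
      rw [← hlaw, Measure.map_apply Measurable.of_discrete MeasurableSet.of_discrete] at h1
      exact h1
    have hreal : (pm lam' L).real {w : win d q (T + N) → ℕ | η / 2 * C * D.lam i <
        |((bc k (ext w) (b, i) : ℕ) : ℝ) - C * D.lam i|} ≤
        2 * Real.exp (-((η / 2) ^ 2 / 4) * (C * D.lam i)) := by
      rw [Measure.real]
      refine ENNReal.toReal_le_of_le_ofReal (by positivity) hmeas
    refine hreal.trans ?_
    have h4 : -((η / 2) ^ 2 / 4) * (C * D.lam i) ≤ -(c₃ * C) := by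
      have h5 : D.lam im ≤ D.lam i := him i
      have h6 : η ^ 2 / 16 * C * D.lam im ≤ η ^ 2 / 16 * C * D.lam i :=
        mul_le_mul_of_nonneg_left h5 (by positivity)
      have h7 : c₃ * C = η ^ 2 / 16 * C * D.lam im := by rw [hc₃]; ring
      have h8 : -((η / 2) ^ 2 / 4) * (C * D.lam i) = -(η ^ 2 / 16 * C * D.lam i) := by ring
      rw [h7, h8]
      linarith
    have h9 := Real.exp_le_exp.mpr h4
    linarith
  -- union bound
  set Kc : ℝ := ((Bs ×ˢ (Finset.univ : Finset (Fin q))).card : ℝ) + 1 with hKc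
  have hKc1 : 1 ≤ Kc := by
    have : (0 : ℝ) ≤ ((Bs ×ˢ (Finset.univ : Finset (Fin q))).card : ℝ) := Nat.cast_nonneg _
    linarith
  have hPL : ∀ L : ℕ, c₂ ≤ (L : ℝ) * (k : ℝ) ^ d → PL lam' L (ZBad d D.V N s T) ≤
      Kc * (2 * Real.exp (-(c₃ * ((L : ℝ) * (k : ℝ) ^ d)))) := by
    intro L hL
    rw [PL_eq hPLM hlam' (Nat.cast_nonneg L)]
    have hsub : ZBad d D.V N s T ⊆ ⋃ p ∈ Bs ×ˢ (Finset.univ : Finset (Fin q)),
        {w : win d q (T + N) → ℕ | η / 2 * ((L : ℝ) * (k : ℝ) ^ d) * D.lam p.2 <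
          |((bc k (ext w) (p.1, p.2) : ℕ) : ℝ) - (L : ℝ) * (k : ℝ) ^ d * D.lam p.2|} := by
      intro w hw
      obtain ⟨g, hg⟩ := hw
      have hex : ∃ b, cellsOf k b ⊆ cube (0 : Cell d) (T + N) ∧
          ¬ Fat D.lam (η / 2) ((L : ℝ) * (k : ℝ) ^ d) (fun i => bc k (ext w) (b, i)) := by
        by_contra hc
        push Not at hc
        exact hg (hsup N s T k _ (ext w) hkN hk1 hNs hsT hL hc g)
      obtain ⟨b, hb, hnf⟩ := hex
      unfold Fat at hnf
      push Not at hnf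
      obtain ⟨i, hi⟩ := hnf
      refine Set.mem_iUnion₂.mpr ⟨(b, i), Finset.mem_product.mpr ⟨hBs b hb, Finset.mem_univ _⟩, ?_⟩
      exact hi
    calc (pm lam' L).real (ZBad d D.V N s T)
        ≤ (pm lam' L).real (⋃ p ∈ Bs ×ˢ (Finset.univ : Finset (Fin q)),
          {w : win d q (T + N) → ℕ | η / 2 * ((L : ℝ) * (k : ℝ) ^ d) * D.lam p.2 <
          |((bc k (ext w) (p.1, p.2) : ℕ) : ℝ) - (L : ℝ) * (k : ℝ) ^ d * D.lam p.2|}) :=
          measureReal_mono hsub (measure_ne_top _ _)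
      _ ≤ ∑ p ∈ Bs ×ˢ (Finset.univ : Finset (Fin q)), (pm lam' L).real
          {w : win d q (T + N) → ℕ | η / 2 * ((L : ℝ) * (k : ℝ) ^ d) * D.lam p.2 <
          |((bc k (ext w) (p.1, p.2) : ℕ) : ℝ) - (L : ℝ) * (k : ℝ) ^ d * D.lam p.2|} :=
          measureReal_biUnion_finset_le _ _
      _ ≤ ∑ p ∈ Bs ×ˢ (Finset.univ : Finset (Fin q)),
          2 * Real.exp (-(c₃ * ((L : ℝ) * (k : ℝ) ^ d))) := by
          refine Finset.sum_le_sum fun p hp => ?_
          exact hone L p.1 p.2 (Finset.mem_filter.mp (Finset.mem_product.mp hp).1).2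
      _ = ((Bs ×ˢ (Finset.univ : Finset (Fin q))).card : ℝ) *
          (2 * Real.exp (-(c₃ * ((L : ℝ) * (k : ℝ) ^ d)))) := by
          rw [Finset.sum_const, nsmul_eq_mul]
      _ ≤ Kc * (2 * Real.exp (-(c₃ * ((L : ℝ) * (k : ℝ) ^ d)))) := by
          apply mul_le_mul_of_nonneg_right _ (by positivity)
          linarith
  -- the limit
  have hlim := hLIM (win d q (T + N)) inferInstance lam' (ZBad d D.V N s T) hlam'
    (hSE d q D N s T hNs hsT) hne
  have hlow : Tendsto (fun L : ℕ => c₃ * (k : ℝ) ^ d - Real.log (Kc * 2) / (L : ℝ)) atTop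
      (𝓝 (c₃ * (k : ℝ) ^ d)) := by
    have := (tendsto_const_nhds (x := c₃ * (k : ℝ) ^ d)).sub
      (tendsto_const_div_atTop_nhds_zero_nat (Real.log (Kc * 2)))
    simpa using this
  have hkR : (1 : ℝ) ≤ (k : ℝ) ^ d := one_le_pow₀ (by exact_mod_cast hk1)
  have hrate : c₃ * (k : ℝ) ^ d ≤ wrate D d N s T := by
    refine le_of_tendsto_of_tendsto hlow hlim ?_
    refine eventually_atTop.mpr ⟨⌈c₂⌉₊ + 1, fun L hL => ?_⟩
    have hLpos : (0 : ℝ) < (L : ℝ) := by
      have : 1 ≤ L := by omega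
      exact_mod_cast this
    have hLc : c₂ ≤ (L : ℝ) * (k : ℝ) ^ d := by
      have h1 : c₂ ≤ (L : ℝ) := by
        refine (Nat.le_ceil c₂).trans ?_
        exact_mod_cast (by omega : ⌈c₂⌉₊ ≤ L)
      nlinarith
    have hpos := PL_pos hPLM hlam' hLpos hne
    have h2 := Real.log_le_log hpos (hPL L hLc)
    rw [← mul_assoc, Real.log_mul (by positivity) (Real.exp_pos _).ne', Real.log_exp] at h2
    show c₃ * (k : ℝ) ^ d - Real.log (Kc * 2) / (L : ℝ) ≤
      -Real.log (PL lam' L (ZBad d D.V N s T)) / L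
    rw [le_div_iff₀ hLpos, sub_mul, div_mul_cancel₀ _ hLpos.ne']
    linarith
  refine le_trans ?_ hrate
  have hNR : (N : ℝ) - d ≤ 2 * ((d : ℝ) + 2) * k := by
    have h1 : N ≤ (d + 2) * (2 * k) := by
      have : (d + 2) * (k + 1) ≤ (d + 2) * (2 * k) := Nat.mul_le_mul_left _ (by omega)
      omega
    have h2 : (N : ℝ) ≤ ((d : ℝ) + 2) * (2 * k) := by exact_mod_cast h1
    have h3 : (0 : ℝ) ≤ d := Nat.cast_nonneg d
    linarith
  have hN0 : (0 : ℝ) ≤ (N : ℝ) - d := by
    have : (d : ℝ) ≤ N := by exact_mod_cast (by omega : d ≤ N)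
    linarith
  have hpow : ((N : ℝ) - d) ^ d ≤ (2 * ((d : ℝ) + 2)) ^ d * (k : ℝ) ^ d := by
    rw [← mul_pow]
    exact pow_le_pow_left₀ hN0 hNR d
  rw [div_mul_eq_mul_div, div_le_iff₀ hden]
  calc c₃ * ((N : ℝ) - d) ^ d ≤ c₃ * ((2 * ((d : ℝ) + 2)) ^ d * (k : ℝ) ^ d) :=
        mul_le_mul_of_nonneg_left hpow hc₃pos.le
    _ = c₃ * (k : ℝ) ^ d * (2 * ((d : ℝ) + 2)) ^ d := by ring

end

end Pool.Agent.H4.MC
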