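import Pool.Agent.H96.MC.Targets

/-!
# MP_5da387_pr, module PSUM: sums of independent Poisson variables over groups of indices (helper4)
-/

namespace Pool.Agent.H4.MC

open Classical MeasureTheory ProbabilityTheory Pool.Agent.H96.MC

open scoped NNReal

noncomputable section

lemma poisson_zero : poissonMeasure 0 = Measure.dirac 0 := by
  refine Measure.ext_of_singleton fun n => ?_
  rw [poissonMeasure_singleton, Measure.dirac_apply]
  by_cases h : n = 0
  · subst h
    simp
  · simp [h, Set.indicator, Ne.symm h]

lemma law_sum_finset {ι : Type} [Fintype ι] (lam : ι → ℝ≥0) (s : Finset ι) :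
    HasLaw (∑ k ∈ s, fun w : ι → ℕ => w k) (poissonMeasure (∑ k ∈ s, lam k))
      (Measure.pi fun k => poissonMeasure (lam k)) := by
  have hind : iIndepFun (fun (k : ι) (w : ι → ℕ) => w k)
      (Measure.pi fun k => poissonMeasure (lam k)) :=
    iIndepFun_pi (X := fun _ x => x) (fun i => aemeasurable_id)
  have hlaw : ∀ k, HasLaw (fun w : ι → ℕ => w k) (poissonMeasure (lam k))
      (Measure.pi fun k => poissonMeasure (lam k)) := fun k =>
    { aemeasurable := (measurable_pi_apply k).aemeasurable
      map_eq := (measurePreserving_eval (fun k => poissonMeasure (lam k)) k).map_eq }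
  induction s using Finset.induction_on with
  | empty =>
    rw [Finset.sum_empty, Finset.sum_empty, poisson_zero]
    refine ⟨measurable_const.aemeasurable, ?_⟩
    have : (0 : (ι → ℕ) → ℕ) = fun _ => 0 := rfl
    rw [this, Measure.map_const]
    simp
  | insert i s hi ih =>
    rw [Finset.sum_insert hi, Finset.sum_insert hi, add_comm, add_comm (lam i)]
    exact IndepFun.hasLaw_add_poissonMeasure
      (hind.indepFun_finsetSum_of_notMem (fun k => measurable_pi_apply k) hi) ih (hlaw i)

lemma law_sum (ι : Type) [Fintype ι] (lam : ι → ℝ≥0) :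
    (Measure.pi fun k => poissonMeasure (lam k)).map (fun w : ι → ℕ => ∑ k, w k) =
      poissonMeasure (∑ k, lam k) := by
  have h := (law_sum_finset lam Finset.univ).map_eq
  have h2 : (∑ k, fun w : ι → ℕ => w k) = fun w : ι → ℕ => ∑ k, w k := by
    funext w
    simp
  rw [h2] at h
  exact h

/-- **PSUM** -/
theorem psum : T_PSUM := by
  intro κ κ' _ _ lam f
  let e : (Σ k' : κ', {k // f k = k'}) ≃ κ := Equiv.sigmaFiberEquiv f
  have h1 : (Measure.pi fun k => poissonMeasure (lam k)) =
      (Measure.pi fun p : (Σ k' : κ', {k // f k = k'}) => poissonMeasure (lam (e p))).map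
        (MeasurableEquiv.piCongrLeft (fun _ => ℕ) e) :=
    (Measure.pi_map_piCongrLeft e (fun k => poissonMeasure (lam k))).symm
  have h2 : (Measure.pi fun p : (Σ k' : κ', {k // f k = k'}) => poissonMeasure (lam (e p))).map
      (MeasurableEquiv.piCurry (fun _ _ => ℕ)) =
      Measure.pi fun k' : κ' => Measure.pi fun j : {k // f k = k'} =>
        poissonMeasure (lam (e ⟨k', j⟩)) := by
    have h := Measure.infinitePi_map_piCurry (κ := fun k' : κ' => {k // f k = k'})
      (X := fun _ _ => ℕ) (fun k' j => poissonMeasure (lam (e ⟨k', j⟩)))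
    rw [Measure.infinitePi_eq_pi, Measure.infinitePi_eq_pi] at h
    simp only [Measure.infinitePi_eq_pi] at h
    exact h
  have h3 : ∀ k' : κ', (Measure.pi fun j : {k // f k = k'} =>
      poissonMeasure (lam (e ⟨k', j⟩))).map (fun w => ∑ j, w j) =
      poissonMeasure (∑ k, if f k = k' then lam k else 0) := by
    intro k'
    rw [law_sum]
    congr 1
    rw [← Finset.sum_filter]
    exact (Finset.sum_subtype (Finset.univ.filter fun k => f k = k')
      (fun k => by simp) lam).symm
  have hG : (fun (w : κ → ℕ) (k' : κ') => ∑ k, if f k = k' then w k else 0) ∘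
      (MeasurableEquiv.piCongrLeft (fun _ => ℕ) e) =
      (fun (x : (k' : κ') → {k // f k = k'} → ℕ) (k' : κ') => ∑ j, x k' j) ∘
        (MeasurableEquiv.piCurry (fun _ _ => ℕ)) := by
    funext y k'
    simp only [Function.comp_apply]
    rw [← Finset.sum_filter]
    rw [Finset.sum_subtype (p := fun k => f k = k') (Finset.univ.filter fun k => f k = k')
      (fun k => by simp) (fun k => (MeasurableEquiv.piCongrLeft (fun _ => ℕ) e) y k)]
    refine Finset.sum_congr rfl fun j _ => ?_
    exact Equiv.piCongrLeft_apply_apply (fun _ => ℕ) e y ⟨k', j⟩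
  rw [h1, Measure.map_map Measurable.of_discrete (MeasurableEquiv.measurable _), hG,
    ← Measure.map_map Measurable.of_discrete (MeasurableEquiv.measurable _), h2]
  have h4 := Measure.pi_map_pi
    (μ := fun k' : κ' => Measure.pi fun j : {k // f k = k'} => poissonMeasure (lam (e ⟨k', j⟩)))
    (f := fun k' (w : {k // f k = k'} → ℕ) => ∑ j, w j) (fun k' => Measurable.of_discrete.aemeasurable)
  rw [h4]
  simp only [h3]

end

end Pool.Agent.H4.MC
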