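import Pool.Agent.H96.MC.Targets2
import Pool.Agent.H4.MC.PLaux

/-!
# MP_5da387_pr, module RB: reduced bad windows (helper4)
-/

namespace Pool.Agent.H4.MC

open Classical MeasureTheory ProbabilityTheory Pool.Agent.H96.MC

open scoped NNReal ENNReal

noncomputable section

variable {d q : ℕ}

/-! ### one coordinate -/

lemma floor_le_self' {e : ℝ} (he1 : e ≤ 1 / 2) (k : ℕ) : ⌊e * (k : ℝ)⌋₊ ≤ k := by
  have h1 : e * (k : ℝ) ≤ (k : ℝ) := by
    have : (0 : ℝ) ≤ k := Nat.cast_nonneg k
    nlinarith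
  have h2 := Nat.floor_le_floor h1
  rwa [Nat.floor_natCast] at h2

lemma red_lt {e : ℝ} (he : 0 ≤ e) (he1 : e ≤ 1 / 2) {k k' : ℕ} (h : k + 2 ≤ k') :
    k - ⌊e * (k : ℝ)⌋₊ < k' - ⌊e * (k' : ℝ)⌋₊ := by
  obtain ⟨m, rfl⟩ := Nat.exists_eq_add_of_le h
  have h1 : e * ((k + 2 + m : ℕ) : ℝ) ≤ e * (k : ℝ) + ((1 + m : ℕ) : ℝ) := by
    have : (0 : ℝ) ≤ m := Nat.cast_nonneg m
    push_cast
    nlinarith
  have h2 := Nat.floor_le_floor h1
  rw [Nat.floor_add_natCast (mul_nonneg he (Nat.cast_nonneg k))] at h2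
  have h3 := floor_le_self' he1 k
  omega

lemma red_inj {e : ℝ} (he : 0 ≤ e) (he1 : e ≤ 1 / 2) {k k' : ℕ}
    (h : k - ⌊e * (k : ℝ)⌋₊ = k' - ⌊e * (k' : ℝ)⌋₊) (hp : k % 2 = k' % 2) : k = k' := by
  rcases lt_trichotomy k k' with hlt | heq | hgt
  · by_cases h2 : k + 2 ≤ k'
    · have := red_lt he he1 h2
      omega
    · omega
  · exact heq
  · by_cases h2 : k' + 2 ≤ k
    · have := red_lt he he1 h2
      omega
    · omega

lemma exp_89 : (16 / 7 : ℝ) ≤ Real.exp (8 / 9) := by
  have h1 := Real.quadratic_le_exp_of_nonneg (x := 4 / 9) (by norm_num)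
  have h2 : Real.exp (8 / 9) = Real.exp (4 / 9) * Real.exp (4 / 9) := by
    rw [← Real.exp_add]; norm_num
  rw [h2]
  have h3 : (0 : ℝ) ≤ 1 + 4 / 9 + (4 / 9) ^ 2 / 2 := by norm_num
  calc (16 / 7 : ℝ) ≤ (1 + 4 / 9 + (4 / 9) ^ 2 / 2) * (1 + 4 / 9 + (4 / 9) ^ 2 / 2) := by norm_num
    _ ≤ Real.exp (4 / 9) * Real.exp (4 / 9) := mul_le_mul h1 h1 h3 (Real.exp_pos _).le

lemma ratio {e lam : ℝ} (he : 0 ≤ e) (he1 : e ≤ 1 / 2) (hlam : 0 < lam) {k : ℕ}
    (h1 : 7 / 8 * lam ≤ (k : ℝ)) (h2 : (k : ℝ) ≤ 9 / 8 * lam) :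
    Real.exp (-lam) * lam ^ k / (k.factorial : ℝ) ≤ Real.exp (e * lam) *
      (Real.exp (-lam) * lam ^ (k - ⌊e * (k : ℝ)⌋₊) / ((k - ⌊e * (k : ℝ)⌋₊).factorial : ℝ)) := by
  set j := ⌊e * (k : ℝ)⌋₊ with hj
  have hjk : j ≤ k := floor_le_self' he1 k
  have hjR : (j : ℝ) ≤ e * k := Nat.floor_le (mul_nonneg he (Nat.cast_nonneg k))
  obtain ⟨m, hm⟩ : ∃ m, k = m + j := ⟨k - j, by omega⟩
  have hkj : k - j = m := by omega
  rw [hkj]
  have hmR : (m : ℝ) = k - j := by rw [hm]; push_cast; ring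
  have hm1 : 7 / 16 * lam ≤ (m : ℝ) + 1 := by
    rw [hmR]
    nlinarith
  have hfac : ((m.factorial : ℝ)) * ((m : ℝ) + 1) ^ j ≤ (k.factorial : ℝ) := by
    have := Nat.factorial_mul_pow_le_factorial (m := m) (n := j)
    rw [← hm] at this
    exact_mod_cast this
  have hm0 : (0 : ℝ) < (m.factorial : ℝ) := by positivity
  have hk0 : (0 : ℝ) < (k.factorial : ℝ) := by positivity
  -- `lam ^ j ≤ (16/7 (m+1))^j`
  have h3 : lam ^ j ≤ (16 / 7 : ℝ) ^ j * ((m : ℝ) + 1) ^ j := by
    rw [← mul_pow]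
    exact pow_le_pow_left₀ hlam.le (by linarith) j
  have h4 : (16 / 7 : ℝ) ^ j ≤ Real.exp (e * lam) := by
    calc (16 / 7 : ℝ) ^ j ≤ Real.exp (8 / 9) ^ j := pow_le_pow_left₀ (by norm_num) exp_89 j
      _ = Real.exp (j * (8 / 9)) := by rw [← Real.exp_nat_mul]
      _ ≤ Real.exp (e * lam) := by
        apply Real.exp_le_exp.mpr
        nlinarith
  have h5 : lam ^ k = lam ^ m * lam ^ j := by rw [hm, pow_add]
  rw [div_le_iff₀ hk0]
  have hE : 0 < Real.exp (-lam) := Real.exp_pos _
  have hlm : 0 < lam ^ m := pow_pos hlam m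
  calc Real.exp (-lam) * lam ^ k = Real.exp (-lam) * lam ^ m * lam ^ j := by rw [h5]; ring
    _ ≤ Real.exp (-lam) * lam ^ m * (Real.exp (e * lam) * ((m : ℝ) + 1) ^ j) := by
        apply mul_le_mul_of_nonneg_left _ (by positivity)
        exact h3.trans (mul_le_mul_of_nonneg_right h4 (by positivity))
    _ = Real.exp (e * lam) * (Real.exp (-lam) * lam ^ m / (m.factorial : ℝ)) *
        ((m.factorial : ℝ) * ((m : ℝ) + 1) ^ j) := by
        field_simp
    _ ≤ Real.exp (e * lam) * (Real.exp (-lam) * lam ^ m / (m.factorial : ℝ)) *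
        (k.factorial : ℝ) := by
        apply mul_le_mul_of_nonneg_left hfac
        positivity

/-! ### windows -/

lemma card_cube (T : ℕ) : (cube (0 : Cell d) T).card = (2 * T + 1) ^ d := by
  unfold cube
  rw [Fintype.card_piFinset]
  have h : ∀ i : Fin d, (Finset.Icc ((0 : Cell d) i - T) ((0 : Cell d) i + T)).card = 2 * T + 1 := by
    intro i
    rw [Int.card_Icc]
    simp only [Pi.zero_apply]
    omega
  rw [Finset.prod_congr rfl fun i _ => h i, Finset.prod_const, Finset.card_univ, Fintype.card_fin]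

lemma good_congr {V : Finset (Fin q → ℕ)} {N s T : ℕ} {m m' : Cfg d q} {g : Fin q → ℤ}
    (h : ∀ x : CC d q, x.1 ∈ cube (0 : Cell d) (T + N) → m x = m' x) (hg : Good V N s T m g) :
    Good V N s T m' g := by
  obtain ⟨μ, y, h1, h2, h3, h4⟩ := hg
  refine ⟨μ, y, h1, h2, ?_, h4⟩
  rw [h3]
  ext x
  rw [rst_apply, rst_apply]
  split_ifs with hx
  · exact h x hx
  · rfl

lemma ext_mem {W : Finset (CC d q)} (w : W → ℕ) (x : W) : ext w x.1 = w x := by
  unfold ext
  rw [dif_pos x.2]

lemma mem_win_iff {T : ℕ} {x : CC d q} : x ∈ win d q T ↔ x.1 ∈ cube (0 : Cell d) T := by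
  unfold win
  rw [Finset.mem_product]
  exact ⟨fun h => h.1, fun h => ⟨h, Finset.mem_univ _⟩⟩

lemma mem_cube_zero {T : ℕ} {b : Cell d} : b ∈ cube (0 : Cell d) T ↔ sn b ≤ T := by
  rw [mem_cube, sub_zero]

/-- **RB** -/
theorem rb (h : T_WINP) : T_RB := by
  intro d q D η e L N s T hη hη1 he he1 hL
  have hL0 : (0 : ℝ) < L := by linarith
  let W : Finset (CC d q) := win d q (T + N)
  let lamW : W → ℝ := fun x => D.lam x.1.2
  have hlamW : ∀ x, 0 < lamW x := fun x => D.pos x.1.2
  -- summability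
  have hsum : Summable (pp lamW L) := by
    by_contra hc
    have h1 := h d q D L W Set.univ hL0.le
    have h2 : PL lamW L Set.univ = 0 := by
      rw [PL_def, Set.indicator_univ]
      exact tsum_eq_zero_of_not_summable hc
    have h3 : PL (fun x : W => D.lam x.1.2) L Set.univ = 0 := h2
    rw [h3] at h1
    have h4 : IsProbabilityMeasure (poisL D d L) := by
      unfold poisL
      infer_instance
    simp at h1
  have hPL : ∀ Z : Set (W → ℕ), ENNReal.ofReal (PL lamW L Z) =
      ∑' w, ENNReal.ofReal (Z.indicator (pp lamW L) w) := by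
    intro Z
    rw [PL_def]
    exact ENNReal.ofReal_tsum_of_nonneg
      (fun w => Set.indicator_nonneg (fun w _ => pp_nonneg hlamW hL0.le w) w) (hsum.indicator Z)
  -- the ring
  let isR : CC d q → Prop := fun x => s < sn x.1 ∧ sn x.1 ≤ T
  let r : (W → ℕ) → (W → ℕ) := fun w x => red e s T (ext w) x.1
  have hrR : ∀ w (x : W), isR x.1 → r w x = w x - ⌊e * (w x : ℝ)⌋₊ := by
    intro w x hx
    show red e s T (ext w) x.1 = _
    unfold red
    rw [if_pos hx, ext_mem]
  have hrN : ∀ w (x : W), ¬ isR x.1 → r w x = w x := by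
    intro w x hx
    show red e s T (ext w) x.1 = _
    unfold red
    rw [if_neg hx, ext_mem]
  let Z' : Set (W → ℕ) := {w | ext w ∈ RBs D d η N s T e L}
  -- reduction to windows
  have hsub : RBs D d η N s T e L ⊆ {m | (fun x : W => m x.1) ∈ Z'} := by
    intro m hm
    have hext : ∀ x : CC d q, x.1 ∈ cube (0 : Cell d) (T + N) →
        ext (fun x : W => m x.1) x = m x := by
      intro x hx
      unfold ext
      rw [dif_pos (mem_win_iff.mpr hx)]
    obtain ⟨h1, g, h2⟩ := hm
    refine ⟨?_, g, ?_⟩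
    · intro b hb1 hb2 i
      beta_reduce
      rw [hext (b, i) (mem_cube_zero.mpr hb2)]
      exact h1 b hb1 hb2 i
    · intro hg
      apply h2
      refine good_congr (fun x hx => ?_) hg
      unfold red
      rw [hext x hx]
  -- the reduced window is bad
  have hbad : ∀ w ∈ Z', r w ∈ ZBad d D.V N s T := by
    intro w hw
    obtain ⟨_, g, h2⟩ := hw
    refine ⟨g, fun hg => h2 (good_congr (fun x hx => ?_) hg)⟩
    exact ext_mem (W := W) (r w) ⟨x, mem_win_iff.mpr hx⟩
  -- the constant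
  let cx : W → ℝ := fun x => if isR x.1 then Real.exp (e * (lamW x * L)) else 1
  have hcprod : ∏ x, cx x ≤ Real.exp (e * (2 * (T : ℝ) + 1) ^ d * (∑ i, D.lam i) * L) := by
    have h1 : ∀ x : W, cx x = Real.exp (if isR x.1 then e * (D.lam x.1.2 * L) else 0) := by
      intro x
      by_cases hx : isR x.1
      · simp only [cx, if_pos hx, lamW]
      · simp only [cx, if_neg hx, Real.exp_zero]
    rw [Finset.prod_congr rfl fun x _ => h1 x, ← Real.exp_sum]
    apply Real.exp_le_exp.mpr
    have h2 : ∑ x : W, (if isR x.1 then e * (D.lam x.1.2 * L) else 0) =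
        ∑ x ∈ W, (if isR x then e * (D.lam x.2 * L) else 0) := by
      rw [← Finset.sum_coe_sort W]
    rw [h2, ← Finset.sum_filter]
    have h3 : W.filter isR ⊆ (cube (0 : Cell d) T) ×ˢ (Finset.univ : Finset (Fin q)) := by
      intro x hx
      have := (Finset.mem_filter.mp hx).2
      exact Finset.mem_product.mpr ⟨mem_cube_zero.mpr this.2, Finset.mem_univ _⟩
    refine (Finset.sum_le_sum_of_subset_of_nonneg h3 fun x _ _ => ?_).trans (le_of_eq ?_)
    · have := D.pos x.2
      positivity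
    · rw [Finset.sum_product]
      dsimp only
      rw [Finset.sum_const, card_cube, nsmul_eq_mul, Finset.mul_sum,
        Finset.mul_sum, Finset.sum_mul]
      refine Finset.sum_congr rfl fun i _ => ?_
      push_cast
      ring
  have hcpos : ∀ x, 0 < cx x := by
    intro x
    by_cases hx : isR x.1
    · simp only [cx, if_pos hx]; exact Real.exp_pos _
    · simp only [cx, if_neg hx]; exact one_pos
  -- comparison of the point masses
  have hpt : ∀ w ∈ Z', pp lamW L w ≤
      Real.exp (e * (2 * (T : ℝ) + 1) ^ d * (∑ i, D.lam i) * L) * pp lamW L (r w) := by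
    intro w hw
    refine le_trans ?_ (mul_le_mul_of_nonneg_right hcprod (pp_nonneg hlamW hL0.le _))
    unfold pp
    rw [← Finset.prod_mul_distrib]
    refine Finset.prod_le_prod (fun x _ => ?_) (fun x _ => ?_)
    · have := mul_pos (hlamW x) hL0
      positivity
    · by_cases hx : isR x.1
      · rw [hrR w x hx]
        simp only [cx, if_pos hx]
        have hfat := hw.1 x.1.1 hx.1 (by have := hx.2; omega) x.1.2
        have hxx : ext w (x.1.1, x.1.2) = w x := ext_mem w x
        beta_reduce at hfat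
        rw [hxx, abs_le] at hfat
        have hl : lamW x * L = L * D.lam x.1.2 := mul_comm _ _
        have hpos : 0 < L * D.lam x.1.2 := mul_pos hL0 (D.pos _)
        have hb1 : η / 4 * L * D.lam x.1.2 ≤ 1 / 8 * (L * D.lam x.1.2) := by
          rw [mul_assoc]
          exact mul_le_mul_of_nonneg_right (by linarith) hpos.le
        rw [hl]
        exact ratio he he1 hpos (by linarith [hfat.1]) (by linarith [hfat.2])
      · rw [hrN w x hx]
        simp only [cx, if_neg hx, one_mul]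
        exact le_rfl
  -- injection
  let R' : Type := {x : W // isR x.1}
  let Ψ : (W → ℕ) → (W → ℕ) × (R' → Bool) := fun w => (r w, fun x => decide (w x.1 % 2 = 1))
  have hΨ : Function.Injective Ψ := by
    intro w w' hww
    have h1 : r w = r w' := congrArg Prod.fst hww
    have h2 : (fun x : R' => decide (w x.1 % 2 = 1)) = fun x : R' => decide (w' x.1 % 2 = 1) :=
      congrArg Prod.snd hww
    funext x
    have h3 := congrFun h1 x
    by_cases hx : isR x.1
    · rw [hrR w x hx, hrR w' x hx] at h3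
      have h4 := congrFun h2 ⟨x, hx⟩
      have h5 : (w x % 2 = 1) ↔ (w' x % 2 = 1) := decide_eq_decide.mp h4
      refine red_inj he he1 h3 ?_
      omega
    · rw [hrN w x hx, hrN w' x hx] at h3
      exact h3
  have hcardR : Fintype.card R' ≤ (2 * T + 1) ^ d * q := by
    have h1 : Fintype.card R' ≤ Fintype.card
        ((cube (0 : Cell d) T) ×ˢ (Finset.univ : Finset (Fin q)) : Finset (CC d q)) := by
      refine Fintype.card_le_of_injective (fun x : R' => (⟨x.1.1, Finset.mem_product.mpr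
        ⟨mem_cube_zero.mpr x.2.2, Finset.mem_univ _⟩⟩ :
        ((cube (0 : Cell d) T) ×ˢ (Finset.univ : Finset (Fin q)) : Finset (CC d q)))) ?_
      intro x y hxy
      have := congrArg Subtype.val hxy
      exact Subtype.ext (Subtype.ext this)
    rw [Fintype.card_coe, Finset.card_product, card_cube, Finset.card_univ,
      Fintype.card_fin] at h1
    exact h1
  set K : ℝ := Real.exp (e * (2 * (T : ℝ) + 1) ^ d * (∑ i, D.lam i) * L) with hK
  have hK0 : 0 ≤ K := (Real.exp_pos _).le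
  let G : (W → ℕ) → ℝ≥0∞ := fun w =>
    ENNReal.ofReal ((ZBad d D.V N s T).indicator (pp lamW L) w)
  have hterm : ∀ w, ENNReal.ofReal (Z'.indicator (pp lamW L) w) ≤ ENNReal.ofReal K * G (r w) := by
    intro w
    by_cases hw : w ∈ Z'
    · rw [Set.indicator_of_mem hw]
      simp only [G]
      rw [Set.indicator_of_mem (hbad w hw), ← ENNReal.ofReal_mul hK0]
      exact ENNReal.ofReal_le_ofReal (hpt w hw)
    · rw [Set.indicator_of_notMem hw, ENNReal.ofReal_zero]
      exact zero_le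
  calc poisL D d L (RBs D d η N s T e L)
      ≤ poisL D d L {m | (fun x : W => m x.1) ∈ Z'} := measure_mono hsub
    _ = ENNReal.ofReal (PL lamW L Z') := h d q D L W Z' hL0.le
    _ = ∑' w, ENNReal.ofReal (Z'.indicator (pp lamW L) w) := hPL Z'
    _ ≤ ∑' w, ENNReal.ofReal K * G (r w) := ENNReal.tsum_le_tsum hterm
    _ = ENNReal.ofReal K * ∑' w, G (r w) := ENNReal.tsum_mul_left
    _ ≤ ENNReal.ofReal K * ∑' p : (W → ℕ) × (R' → Bool), G p.1 := by
        gcongr
        exact ENNReal.tsum_comp_le_tsum_of_injective hΨ (fun p : (W → ℕ) × (R' → Bool) => G p.1)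
    _ = ENNReal.ofReal K * ((2 : ℝ≥0∞) ^ Fintype.card R' * ∑' w, G w) := by
        congr 1
        rw [ENNReal.tsum_prod (f := fun (w : W → ℕ) (_ : R' → Bool) => G w), ← ENNReal.tsum_mul_left]
        refine tsum_congr fun w => ?_
        rw [tsum_fintype, Finset.sum_const, Finset.card_univ, nsmul_eq_mul, Fintype.card_fun,
          Fintype.card_bool]
        push_cast
        rfl
    _ ≤ ENNReal.ofReal K * ((2 : ℝ≥0∞) ^ ((2 * T + 1) ^ d * q) * ∑' w, G w) := by
        gcongr
        exact one_le_two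
    _ = ENNReal.ofReal (2 ^ ((2 * T + 1) ^ d * q) * K *
          PL lamW L (ZBad d D.V N s T)) := by
        rw [← hPL (ZBad d D.V N s T), ENNReal.ofReal_mul (by positivity),
          ENNReal.ofReal_mul (by positivity), ENNReal.ofReal_pow (by norm_num),
          ENNReal.ofReal_ofNat]
        ring

end

end Pool.Agent.H4.MC
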