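import Pool.Agent.H89.MC.Targets

/-!
mc_modules TLB (MP_5da387_pr): the tail of the typical diameter of the scheme in space is bounded
by the tail in the cells.
-/

namespace Pool.Agent.H4.MC.TLB

open Classical MeasureTheory ProbabilityTheory
open Pool.Agent.H96.MC

noncomputable section

variable {d q : ℕ}

/-- the cells which can contain a point of the unit cube -/
def Wf (d : ℕ) : Finset (Cell d) := Fintype.piFinset (fun _ : Fin d => ({-1, 0} : Finset ℤ))

lemma card_Wf (d : ℕ) : (Wf d).card = 2 ^ d := by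
  unfold Wf
  rw [Fintype.card_piFinset]
  simp

lemma dist_pos (ω : Big d q) (hU : ∀ x l, 0 ≤ ω.2.1 x l ∧ ω.2.1 x l < 1) (y y' : Pt d q) :
    dist (pos ω y) (pos ω y') ≤ nrm (y.1.1 - y'.1.1) + Real.sqrt d := by
  have e : pos ω y - pos ω y' =
      (WithLp.toLp 2 (fun l => (((y.1.1 - y'.1.1) l : ℤ) : ℝ)) : Sp d) +
        WithLp.toLp 2 (fun l => ω.2.1 y l - ω.2.1 y' l) := by
    ext l
    simp only [pos, PiLp.sub_apply, PiLp.add_apply, Pi.sub_apply, Int.cast_sub]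
    ring
  rw [dist_eq_norm, e]
  refine (norm_add_le _ _).trans ?_
  rw [nrm_eq_norm]
  refine add_le_add le_rfl ?_
  rw [EuclideanSpace.norm_eq]
  apply Real.sqrt_le_sqrt
  calc ∑ l : Fin d, ‖(WithLp.toLp 2 (fun l => ω.2.1 y l - ω.2.1 y' l) : Sp d) l‖ ^ 2
      ≤ ∑ _l : Fin d, (1 : ℝ) := by
        apply Finset.sum_le_sum
        intro l _
        show ‖ω.2.1 y l - ω.2.1 y' l‖ ^ 2 ≤ 1
        rw [Real.norm_eq_abs, sq_abs]
        have h1 := hU y l
        have h2 := hU y' l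
        nlinarith
    _ = d := by simp

lemma count_le (h5 : T_MTC) (hd : 1 ≤ d) (V : Finset (Fin q → ℕ)) (ω : Big d q)
    (hω : GoodB V ω) (r : ℝ) (hr : 0 ≤ r) :
    {x : Sp d | (∀ i, 0 ≤ x i ∧ x i < 1) ∧ (∃ i, x ∈ ptsB V i ω) ∧
      ∃ G ∈ matB V ω, x ∈ G ∧ r < fdiam G}.encard ≤
    ((∑ v ∈ Wf d, numFarAt v (r - Real.sqrt d) ω.1 : ℕ) : ℕ∞) := by
  have hinj := (h5 d q V ω hd hω).1
  obtain ⟨-, hU, hζ, hM, -⟩ := id hω
  set Q : Finset (Pt d q) := (Wf d).biUnion fun v => Finset.univ.biUnion fun i =>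
    ((Finset.range (ω.1.1 (v, i))).filter fun k => Far (r - Real.sqrt d) ω.1 ((v, i), k)).image
      fun k => ((v, i), k) with hQ
  have hcard : Q.card ≤ ∑ v ∈ Wf d, numFarAt v (r - Real.sqrt d) ω.1 := by
    refine Finset.card_biUnion_le.trans (Finset.sum_le_sum fun v _ => ?_)
    refine Finset.card_biUnion_le.trans ?_
    unfold numFarAt
    exact Finset.sum_le_sum fun i _ => Finset.card_image_le
  have hsub : {x : Sp d | (∀ i, 0 ≤ x i ∧ x i < 1) ∧ (∃ i, x ∈ ptsB V i ω) ∧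
      ∃ G ∈ matB V ω, x ∈ G ∧ r < fdiam G} ⊆ pos ω '' (Q : Set (Pt d q)) := by
    rintro x ⟨hx, ⟨i, -, p, hp, -, rfl⟩, G, ⟨-, p', -, rfl⟩, hxG, hdiam⟩
    refine ⟨p, ?_, rfl⟩
    obtain ⟨y, hy, hyp⟩ := Finset.mem_image.1 hxG
    have hyp2 : y = p := hinj hyp
    subst hyp2
    have hG0 : ω.1.2 y = ω.1.2 p' := ((hM p' ⟨y, hy⟩).2.2 y hy).1
    rw [← hG0] at hdiam
    have hfar : Far (r - Real.sqrt d) ω.1 y := by
      by_contra hcon
      unfold Far at hcon
      push Not at hcon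
      apply absurd hdiam
      push Not
      unfold fdiam
      refine Metric.diam_le_of_forall_dist_le hr ?_
      intro a ha b hb
      simp only [famB, Finset.coe_image, Set.mem_image, Finset.mem_coe] at ha hb
      obtain ⟨z, hz, rfl⟩ := ha
      obtain ⟨z', hz', rfl⟩ := hb
      have h1 := dist_pos ω hU z z'
      have h2 := hcon z hz z' hz'
      linarith
    have hcell : y.1.1 ∈ Wf d := by
      unfold Wf
      rw [Fintype.mem_piFinset]
      intro l
      have h1 := hx l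
      have h2 := hU y l
      have h3 := hζ l
      have h4 : (pos ω y) l = (y.1.1 l : ℝ) + ω.2.1 y l + ω.2.2 l := rfl
      rw [h4] at h1
      have h5 : (-2 : ℝ) < (y.1.1 l : ℝ) := by linarith
      have h6 : (y.1.1 l : ℝ) < 1 := by linarith
      have h7 : (-2 : ℤ) < y.1.1 l := by exact_mod_cast h5
      have h8 : y.1.1 l < 1 := by exact_mod_cast h6
      simp only [Finset.mem_insert, Finset.mem_singleton]
      omega
    rw [hQ]
    simp only [Finset.mem_coe, Finset.mem_biUnion, Finset.mem_image, Finset.mem_filter,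
      Finset.mem_range, Finset.mem_univ, true_and]
    exact ⟨y.1.1, hcell, y.1.2, y.2, ⟨hp, hfar⟩, rfl⟩
  calc _ ≤ (pos ω '' (Q : Set (Pt d q))).encard := Set.encard_le_encard hsub
    _ ≤ (Q : Set (Pt d q)).encard := Set.encard_image_le _ _
    _ = (Q.card : ℕ∞) := Set.encard_coe_eq_coe_finsetCard _
    _ ≤ _ := by exact_mod_cast hcard

/-- **TLB** -/
theorem tlb (h1 : T_SHX) (h2 : T_CLO) (h3 : T_UNI) (h4 : T_GOO) (h5 : T_MTC) : T_TLB := by
  intro d q V μ r hd hμ hinv hperf hr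
  obtain ⟨hprob, -⟩ := h3 d
  obtain ⟨hcont, -, -, -, hnum, -⟩ := h1 d q
  obtain ⟨-, -, -, -, -, hmeas⟩ := h2 d q V
  obtain ⟨hbig, hae⟩ := (h4 d q V hd).2 μ hμ hperf
  set s : ℝ := r - Real.sqrt d with hs
  have hone : ∀ v : Cell d, ∫⁻ ω, (numFarAt v s ω.1 : ENNReal) ∂(bigLaw μ) =
      ∫⁻ ω, (numFar s ω : ENNReal) ∂μ := by
    intro v
    have e1 : ∫⁻ ω, (numFarAt v s ω.1 : ENNReal) ∂(bigLaw μ) =
        ∫⁻ ω, (numFarAt v s ω : ENNReal) ∂μ := by
      have hmp : MeasurePreserving Prod.fst (bigLaw μ) μ := measurePreserving_fst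
      exact hmp.lintegral_comp (hmeas v s)
    have e2 : ∫⁻ ω, (numFarAt v s ω : ENNReal) ∂μ =
        ∫⁻ ω, (numFarAt 0 s (shX v ω) : ENNReal) ∂μ := by
      apply lintegral_congr
      intro ω
      rw [hnum, zero_add]
    have e3 : ∫⁻ ω, (numFarAt 0 s (shX v ω) : ENNReal) ∂μ = ∫⁻ ω, (numFarAt 0 s ω : ENNReal) ∂μ := by
      have hmp : MeasurePreserving (shX (q := q) v) μ μ := ⟨(hcont v).measurable, hinv v⟩
      exact hmp.lintegral_comp (hmeas 0 s)
    rw [e1, e2, e3]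
    rfl
  calc ∫⁻ ω, (({x : Sp d | (∀ i, 0 ≤ x i ∧ x i < 1) ∧ (∃ i, x ∈ ptsB V i ω) ∧
          ∃ G ∈ matB V ω, x ∈ G ∧ r < fdiam G}.encard : ℕ∞) : ENNReal) ∂(bigLaw μ)
      ≤ ∫⁻ ω, ∑ v ∈ Wf d, (numFarAt v s ω.1 : ENNReal) ∂(bigLaw μ) := by
        apply lintegral_mono_ae
        filter_upwards [hae] with ω hω
        have := count_le h5 hd V ω hω r hr
        have h6 := ENat.toENNReal_le.2 this
        refine h6.trans (le_of_eq ?_)
        rw [ENat.toENNReal_coe, Nat.cast_sum, hs]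
    _ = ∑ v ∈ Wf d, ∫⁻ ω, (numFarAt v s ω.1 : ENNReal) ∂(bigLaw μ) := by
        apply lintegral_finsetSum
        intro v _
        exact (hmeas v s).comp measurable_fst
    _ = ∑ _v ∈ Wf d, ∫⁻ ω, (numFar s ω : ENNReal) ∂μ := Finset.sum_congr rfl fun v _ => hone v
    _ = 2 ^ d * ∫⁻ ω, (numFar s ω : ENNReal) ∂μ := by
        rw [Finset.sum_const, card_Wf, nsmul_eq_mul]
        push_cast
        rfl

end

end Pool.Agent.H4.MC.TLB
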